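import Pool.Agent.Helper58_NDF.Gen
import Pool.Agent.Helper91_NDR.Pub

/-!
# The final statement for nondegenerate polynomials, relative to `RootsStmt`
-/

set_option autoImplicit false

namespace Pool.Agent.GENF.H58

open MvPolynomial Pool.Agent.Helper8_CR Pool.Agent.Helper91_NDR

/-- the final theorem relative to the root side -/
theorem final (hR : Pool.Agent.NDR.RootsStmt) :
    (∀ (k : Type) [Field k] [Algebra k ℂ] (τ : Type) [Fintype τ] (G : MvPolynomial τ k),
      Nondegenerate G →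
      ∀ (σ : Type) [Finite σ] (f : MvPolynomial σ k), (∀ c : k, f ≠ C c) →
      ∀ (r : ℕ) (Φ : MvPolynomial τ k ≃ₐ[k] MvPolynomial (SV σ r) k), Φ G = stab f r → Mon f) ∧
    ∀ (τ : Type) [Fintype τ] (M : Finset (τ →₀ ℕ)), M.Nonempty →
      ∃ H : MvPolynomial M ℚ, H ≠ 0 ∧
        ∀ (k : Type) [Field k] [Algebra k ℂ] (G : MvPolynomial τ k), G.support = M →
          ∀ (a : ℂ) (t : τ → ℂ), a ≠ 0 → (∀ i, t i ≠ 0) →
          aeval (fun α : M => a * ((α : τ →₀ ℕ).prod fun i n => t i ^ n) *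
            algebraMap k ℂ (G.coeff (α : τ →₀ ℕ))) H ≠ 0 →
          Nondegenerate G := by
  refine ⟨fun k _ _ τ _ G hG σ _ f hf r Φ hΦ =>
    main_ndr_stab hR f hf r G ((nondeg_iff G).1 hG) Φ hΦ, fun τ _ M hM => ?_⟩
  obtain ⟨H, hH, h⟩ := nd_generic τ M hM
  exact ⟨H, hH, fun k _ _ G hs a t ha ht hne => (nondeg_iff G).2 (h k G hs a t ha ht hne)⟩

/-- the faces of the Newton polytope suffice -/
theorem nondeg_of_all {k : Type} [Field k] {σ : Type} [Fintype σ] {f : MvPolynomial σ k}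
    (h : ∀ w : σ → ℤ, Pool.Agent.Helper30_Simp.TorusSmooth (initForm w f)) : Nondegenerate f := by
  rw [nondeg_iff]
  refine nd_of_all fun η => ?_
  have h1 := h η
  rwa [initForm_eq] at h1

/-- for convenient polynomials the faces of the Newton polyhedron suffice -/
theorem nondeg_of_conv {k : Type} [Field k] {σ : Type} [Fintype σ] {f : MvPolynomial σ k}
    (h : ∀ w : σ → ℤ, (∀ i, 0 ≤ w i) → Pool.Agent.Helper30_Simp.TorusSmooth (initForm w f))
    (hc : ∀ i, ∃ n : ℕ, Finsupp.single i n ∈ f.support) : Nondegenerate f := by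
  rw [nondeg_iff]
  refine nd_of_conv (fun u => ?_) hc
  have h1 := h (fun i => (u i : ℤ)) (fun i => Int.natCast_nonneg _)
  rwa [initForm_eq, ← fcn_eq_fcz, fcn_eq] at h1

end Pool.Agent.GENF.H58
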