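import Pool.Agent.Helper88_GEN.EMN
import Pool.Agent.GEN.StmtsT

/-!
# Nondegenerate polynomials (all faces): the cofactors of a weak stable set of a face

`NDF f`: all face polynomials of `f` (compact and noncompact faces) are smooth in the torus. The
proof of `emf` is the one of helper88 (`Helper88_GEN/EMN.lean`), which uses only these partial sums.
-/

set_option autoImplicit false

open Pool.Agent.Helper30_Simp Pool.Agent.Helper30_Simp2.H63

namespace Pool.Agent.GENF.H58

open Pool.Agent.GEN Pool.Agent.GEN.H88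

/-- Newton nondegenerate: for all weights `u ≥ 0` the sum of the terms of `f` of least weight is
smooth in the torus -/
def NDF {k σ : Type} [Field k] [Fintype σ] (f : MvPolynomial σ k) : Prop :=
  ∀ u : σ → ℕ, TorusSmooth (part f (fce f.support u))

section comb

variable {σ : Type} [Fintype σ]

theorem cell_fce {M I : Finset (σ →₀ ℕ)} {J : Finset σ} {u : σ → ℕ} {N : ℕ}
    (h : CellS M I J u N) : I = fce M u := by
  classical
  ext α
  have hm : α ∈ fce M u ↔ α ∈ M ∧ (α ∈ M ∧ ∀ β ∈ M, dot u α ≤ dot u β) := by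
    unfold fce
    rw [Finset.mem_filter]
    rfl
  rw [hm]
  constructor
  · intro hα
    refine ⟨h.sub hα, h.sub hα, fun β hβ => ?_⟩
    rw [h.eq α hα]
    by_cases hb : β ∈ I
    · rw [h.eq β hb]
    · exact (h.lt β hβ hb).le
  · rintro ⟨hM, -, hmin⟩
    by_contra hα
    obtain ⟨β, hβ⟩ := h.ne
    have h1 := h.lt α hM hα
    have h2 := hmin β (h.sub hβ)
    rw [h.eq β hβ] at h2
    exact absurd h2 (not_le.2 h1)

theorem cell_smooth {k : Type} [Field k] {f : MvPolynomial σ k} (hf : NDF f)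
    {I : Finset (σ →₀ ℕ)} {J : Finset σ} {u : σ → ℕ} {N : ℕ} (h : CellS f.support I J u N) :
    TorusSmooth (part f I) := by
  rw [cell_fce h]
  exact hf u

end comb

section field

variable {k F σ : Type} [Field k] [Field F] [CharZero F] [Algebra k F] [Fintype σ]

set_option linter.unusedSectionVars false

/-- the field version -/
theorem emf_field (f : MvPolynomial σ k) (I : Finset (σ →₀ ℕ)) (K : Finset σ)
    (hf : ∀ K' ⊆ K, ∀ I' : Finset (σ →₀ ℕ), (∀ α, α ∈ I' ↔ α ∈ I ∧ ∃ j ∈ K', α j = 1) →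
      I'.Nonempty → TorusSmooth (part f I'))
    (hK : KS I K) (x : σ → F) (C : Finset σ)
    (hC : ∀ i, i ∈ C ↔ i ∉ K ∧ ∃ α ∈ I, α i ≠ 0) (hx : ∀ i ∈ C, x i ≠ 0)
    (hz : ∀ j ∈ K, ∑ α ∈ I, (α j : F) * (algebraMap k F (f.coeff α) * ∏ i ∈ C, x i ^ α i) = 0) :
    False := by
  classical
  obtain ⟨⟨hKne, hKsum, hKocc⟩, hrank⟩ := hK
  obtain ⟨m, hm⟩ : ∃ m : (σ →₀ ℕ) → F,
      m = fun α => algebraMap k F (f.coeff α) * ∏ i ∈ C, x i ^ α i := ⟨_, rfl⟩
  have hz' : ∀ j ∈ K, ∑ α ∈ I, (α j : F) * m α = 0 := by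
    intro j hj; rw [hm]; exact hz j hj
  choose! β hβI hβ1 using hKocc
  obtain ⟨D, hD⟩ : ∃ D : σ → σ → F, D = fun j i => ∑ α ∈ I, (α j : F) * (α i : F) * m α :=
    ⟨_, rfl⟩
  obtain ⟨b, hbV, hbs, hbl⟩ := exists_linearIndependent ℚ
    {v : σ → ℚ | ∃ j ∈ K, ∃ α ∈ I, ∃ β ∈ I, α j = 1 ∧ β j = 1 ∧
      v = fun i => (α i : ℚ) - (β i : ℚ)}
  have hbfin : b.Finite := hbl.setFinite
  have : Fintype b := hbfin.fintype
  have hcard : Fintype.card b < K.card := by
    have h1 := finrank_span_set_eq_card (R := ℚ) (s := b) hbl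
    rw [hbs, Set.toFinset_card] at h1
    rw [← h1]
    exact hrank
  obtain ⟨cst, hcst⟩ : ∃ cst : (σ → ℚ) →ₗ[ℚ] (σ → F), ∀ v i, cst v i = ((v i : ℚ) : F) :=
    ⟨(Algebra.linearMap ℚ F).compLeft σ, fun v i => rfl⟩
  obtain ⟨Wd, hWd⟩ : ∃ Wd : Submodule F (σ → F),
      Wd = Submodule.span F (Set.range (fun d : b => cst (d : σ → ℚ))) := ⟨_, rfl⟩
  have hcW : ∀ v ∈ Submodule.span ℚ b, cst v ∈ Wd := by
    intro v hv
    induction hv using Submodule.span_induction with
    | mem v hv => rw [hWd]; exact Submodule.subset_span ⟨⟨v, hv⟩, rfl⟩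
    | zero => rw [map_zero]; exact Submodule.zero_mem _
    | add u v _ _ hu hv => rw [map_add]; exact Submodule.add_mem _ hu hv
    | smul q v _ hv =>
      have h1 : cst (q • v) = (q : F) • cst v := by
        funext i
        rw [hcst, Pi.smul_apply, Pi.smul_apply, hcst, smul_eq_mul, smul_eq_mul, Rat.cast_mul]
      rw [h1]
      exact Submodule.smul_mem _ _ hv
  have hDW : ∀ j ∈ K, D j ∈ Wd := by
    intro j hj
    have h1 : D j = ∑ α ∈ I, ((α j : F) * m α) •
        cst (fun i => ((α i : ℚ) - (β j i : ℚ))) := by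
      funext i
      rw [hD, Finset.sum_apply]
      simp only [Pi.smul_apply, hcst, smul_eq_mul]
      have h2 : ∑ α ∈ I, (α j : F) * m α * (((α i : ℚ) - (β j i : ℚ) : ℚ) : F) =
          ∑ α ∈ I, (α j : F) * (α i : F) * m α - (∑ α ∈ I, (α j : F) * m α) * (β j i : F) := by
        rw [Finset.sum_mul, ← Finset.sum_sub_distrib]
        refine Finset.sum_congr rfl fun α _ => ?_
        push_cast
        ring
      rw [h2, hz' j hj, zero_mul, sub_zero]
    rw [h1]
    refine Submodule.sum_mem _ fun α hα => ?_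
    rcases stab_01 hKsum hα hj with h2 | h2
    · rw [h2, Nat.cast_zero, zero_mul, zero_smul]; exact Submodule.zero_mem _
    · refine Submodule.smul_mem _ _ (hcW _ ?_)
      rw [hbs]
      exact Submodule.subset_span ⟨j, hj, α, hα, β j, hβI j hj, h2, hβ1 j hj, rfl⟩
  -- the linear relation
  have hnl : ¬ LinearIndependent F (fun j : K => D (j : σ)) := by
    intro hli
    have h1 : LinearIndependent F (fun j : K => (⟨D (j : σ), hDW _ j.2⟩ : Wd)) :=
      LinearIndependent.of_comp Wd.subtype hli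
    have h2 := h1.fintype_card_le_finrank
    have h3 : Module.finrank F Wd ≤ Fintype.card b := by
      rw [hWd]
      exact finrank_range_le_card (R := F) (fun d : b => cst (d : σ → ℚ))
    rw [Fintype.card_coe] at h2
    omega
  rw [Fintype.not_linearIndependent_iff] at hnl
  obtain ⟨y0, hy0, j0, hj0⟩ := hnl
  obtain ⟨y, hy⟩ : ∃ y : σ → F, y = fun j => if h : j ∈ K then y0 ⟨j, h⟩ else 0 := ⟨_, rfl⟩
  have hyj0 : y j0 ≠ 0 := by
    rw [hy]
    simp only [dif_pos j0.2]
    exact hj0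
  have hyD : ∑ j ∈ K, y j • D j = 0 := by
    rw [← hy0, ← Finset.sum_coe_sort K]
    refine Finset.sum_congr rfl fun j _ => ?_
    rw [hy]
    simp only [dif_pos j.2]
  -- the weights
  obtain ⟨s, hs⟩ : ∃ s : (σ →₀ ℕ) → F, s = fun α => ∑ j ∈ K, (α j : F) * y j := ⟨_, rfl⟩
  obtain ⟨I', hI'⟩ : ∃ I' : Finset (σ →₀ ℕ),
      I' = I.filter (fun α => ∃ j ∈ K, y j ≠ 0 ∧ α j = 1) := ⟨_, rfl⟩
  have hI'I : I' ⊆ I := by rw [hI']; exact Finset.filter_subset _ _
  have hI'ne : I'.Nonempty := by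
    refine ⟨β j0, ?_⟩
    rw [hI', Finset.mem_filter]
    exact ⟨hβI _ j0.2, j0, j0.2, hyj0, hβ1 _ j0.2⟩
  have hs0 : ∀ α ∈ I, α ∉ I' → s α = 0 := by
    intro α hα hα'
    rw [hs]
    refine Finset.sum_eq_zero fun j hj => ?_
    rcases stab_01 hKsum hα hj with h2 | h2
    · rw [h2, Nat.cast_zero, zero_mul]
    · by_cases h3 : y j = 0
      · rw [h3, mul_zero]
      · exact absurd (by rw [hI', Finset.mem_filter]; exact ⟨hα, j, hj, h3, h2⟩) hα'
  -- the point
  obtain ⟨x', hx'⟩ : ∃ x' : σ → F, x' = fun i => if i ∈ K then (if y i = 0 then 1 else y i)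
      else (if i ∈ C then x i else 1) := ⟨_, rfl⟩
  have hx'0 : ∀ i, x' i ≠ 0 := by
    intro i
    rw [hx']
    simp only
    split_ifs with h1 h2 h3
    · exact one_ne_zero
    · exact h2
    · exact hx i h3
    · exact one_ne_zero
  have hmon : ∀ α ∈ I', algebraMap k F (f.coeff α) * ∏ l, x' l ^ α l = s α * m α := by
    intro α hα'
    have hα := hI'I hα'
    rw [hI', Finset.mem_filter] at hα'
    obtain ⟨-, j, hj, hyj, hαj⟩ := hα'
    have hjC : j ∉ C := fun h => ((hC j).mp h).1 hj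
    have h1 : ∏ l, x' l ^ α l = ∏ l ∈ insert j C, x' l ^ α l := by
      symm
      refine Finset.prod_subset (Finset.subset_univ _) fun l _ hl => ?_
      rw [Finset.mem_insert, not_or] at hl
      have h2 : α l = 0 := by
        by_cases hlK : l ∈ K
        · exact stab_zero hKsum hα hlK hj hl.1 hαj
        · by_contra h3
          exact hl.2 ((hC l).mpr ⟨hlK, α, hα, h3⟩)
      rw [h2, pow_zero]
    have h2 : x' j = y j := by
      rw [hx']
      simp only [if_pos hj, if_neg hyj]
    have h3 : ∏ l ∈ C, x' l ^ α l = ∏ l ∈ C, x l ^ α l := by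
      refine Finset.prod_congr rfl fun l hl => ?_
      have h4 : x' l = x l := by
        rw [hx']
        simp only [if_neg ((hC l).mp hl).1, if_pos hl]
      rw [h4]
    have h4 : s α = y j := by
      rw [hs]
      simp only
      rw [Finset.sum_eq_single j]
      · rw [hαj, Nat.cast_one, one_mul]
      · intro l hl hlj
        rw [stab_zero hKsum hα hl hj hlj hαj, Nat.cast_zero, zero_mul]
      · intro h; exact absurd hj h
    rw [h1, Finset.prod_insert hjC, h2, hαj, pow_one, h3, h4, hm]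
    ring
  have hext : ∀ c : (σ →₀ ℕ) → F, ∑ α ∈ I', c α * (s α * m α) = ∑ α ∈ I, c α * (s α * m α) := by
    intro c
    refine Finset.sum_subset hI'I fun α hα hα' => ?_
    rw [hs0 α hα hα', zero_mul, mul_zero]
  have hsum : ∀ c : (σ →₀ ℕ) → F, ∑ α ∈ I, c α * (s α * m α) =
      ∑ j ∈ K, y j * ∑ α ∈ I, (α j : F) * c α * m α := by
    intro c
    rw [hs]
    simp only [Finset.sum_mul, Finset.mul_sum]
    rw [Finset.sum_comm]
    refine Finset.sum_congr rfl fun j _ => Finset.sum_congr rfl fun α _ => ?_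
    ring
  have hsm : TorusSmooth (part f I') := by
    refine hf (K.filter fun j => y j ≠ 0) (Finset.filter_subset _ _) I' ?_ hI'ne
    intro α
    rw [hI', Finset.mem_filter]
    constructor
    · rintro ⟨h1, j, hj, hyj, hα⟩
      exact ⟨h1, j, Finset.mem_filter.2 ⟨hj, hyj⟩, hα⟩
    · rintro ⟨h1, j, hj, hα⟩
      exact ⟨h1, j, (Finset.mem_filter.1 hj).1, (Finset.mem_filter.1 hj).2, hα⟩
  refine smooth_contra (part f I') hsm x' hx'0 ?_ ?_
  · rw [evl]
    have h1 : ∑ α ∈ I', algebraMap k F (f.coeff α) * ∏ l, x' l ^ α l =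
        ∑ α ∈ I', (1 : F) * (s α * m α) :=
      Finset.sum_congr rfl fun α hα => by rw [hmon α hα, one_mul]
    rw [h1, hext (fun _ => 1), hsum (fun _ => 1)]
    refine Finset.sum_eq_zero fun j hj => ?_
    have h2 : ∑ α ∈ I, (α j : F) * 1 * m α = 0 := by
      rw [← hz' j hj]
      exact Finset.sum_congr rfl fun α _ => by rw [mul_one]
    rw [h2, mul_zero]
  · intro i
    have h1 := euler f I' x' i
    have h2 : ∑ α ∈ I', (α i : F) * (algebraMap k F (f.coeff α) * ∏ l, x' l ^ α l) =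
        ∑ α ∈ I', (α i : F) * (s α * m α) :=
      Finset.sum_congr rfl fun α hα => by rw [hmon α hα]
    rw [h2, hext (fun α => (α i : F)), hsum (fun α => (α i : F))] at h1
    have h3 : ∑ j ∈ K, y j * ∑ α ∈ I, (α j : F) * (α i : F) * m α = 0 := by
      have h4 := congrFun hyD i
      rw [Finset.sum_apply] at h4
      rw [hD] at h4
      simpa only [Pi.smul_apply, smul_eq_mul, Pi.zero_apply] using h4
    rw [h3] at h1
    exact (mul_eq_zero.mp h1).resolve_left (hx'0 i)

end field

/-- the cofactors of a weak stable set have no common zero in the torus, if the parts of `f` with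
the monomials of `I` which contain a variable of `K'` are smooth in the torus for `K' ⊆ K` -/
theorem emf {k : Type} [Field k] [CharZero k] {σ : Type} [Fintype σ] (f : MvPolynomial σ k)
    (I : Finset (σ →₀ ℕ)) (K : Finset σ)
    (hf : ∀ K' ⊆ K, ∀ I' : Finset (σ →₀ ℕ), (∀ α, α ∈ I' ↔ α ∈ I ∧ ∃ j ∈ K', α j = 1) →
      I'.Nonempty → TorusSmooth (part f I'))
    (hK : KS I K) (S : Type) [CommRing S] [Nontrivial S] [Algebra k S] (x : σ → S)
    (hx : ∀ i, i ∉ K → (∃ α ∈ I, α i ≠ 0) → IsUnit (x i)) : ¬ ∀ j ∈ K, gjv f I j x = 0 := by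
  intro hz
  classical
  obtain ⟨m, hm⟩ := Ideal.exists_maximal S
  let _ : Field (S ⧸ m) := Ideal.Quotient.field m
  have : CharZero (S ⧸ m) := charZero_of_injective_algebraMap (algebraMap k (S ⧸ m)).injective
  refine emf_field f I K hf hK (fun i => Ideal.Quotient.mk m (x i))
    (Finset.univ.filter (fun i => i ∉ K ∧ ∃ α ∈ I, α i ≠ 0)) (fun i => by simp) ?_ ?_
  · intro i hi
    rw [Finset.mem_filter] at hi
    exact ((hx i hi.2.1 hi.2.2).map (Ideal.Quotient.mk m)).ne_zero
  · intro j hj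
    have h1 := hz j hj
    have h2 := congrArg (Ideal.Quotient.mk m) h1
    rw [map_zero] at h2
    rw [← h2]
    unfold gjv
    rw [map_sum]
    symm
    have h0 : ∀ α ∈ I, α ∉ I.filter (fun α => α j = 1) →
        ((α j : ℕ) : S ⧸ m) * (algebraMap k (S ⧸ m) (f.coeff α) *
          ∏ i ∈ Finset.univ.filter (fun i => i ∉ K ∧ ∃ α ∈ I, α i ≠ 0),
            (Ideal.Quotient.mk m (x i)) ^ α i) = 0 := by
      intro α hα hα'
      rcases stab_01 hK.1.2.1 hα hj with h3 | h3
      · rw [h3, Nat.cast_zero, zero_mul]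
      · exact absurd (Finset.mem_filter.mpr ⟨hα, h3⟩) hα'
    rw [← Finset.sum_subset (Finset.filter_subset (fun α : σ →₀ ℕ => α j = 1) I) h0]
    refine Finset.sum_congr ?_ ?_
    · ext α
      simp only [Finset.mem_filter]
    · intro α hα
      obtain ⟨hαI, hαj⟩ := Finset.mem_filter.1 hα
      unfold cof
      rw [map_mul, map_prod, hαj, Nat.cast_one, one_mul]
      have e1 : Ideal.Quotient.mk m (algebraMap k S (f.coeff α)) =
          algebraMap k (S ⧸ m) (f.coeff α) := rfl
      rw [e1]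
      refine congrArg _ ?_
      symm
      simp only [map_pow]
      have hsub : α.support.erase j ⊆
          Finset.univ.filter (fun i => i ∉ K ∧ ∃ α ∈ I, α i ≠ 0) := by
        intro i hi
        have h3 := Finset.mem_erase.1 hi
        have h4 := Finsupp.mem_support_iff.1 h3.2
        refine Finset.mem_filter.2 ⟨Finset.mem_univ _, ?_, α, hαI, h4⟩
        intro hiK
        exact h4 (stab_zero hK.1.2.1 hαI hiK hj h3.1 hαj)
      symm
      refine Finset.prod_subset hsub ?_
      intro i hi1 hi2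
      have h5 : i ≠ j := by
        rintro rfl
        exact (Finset.mem_filter.1 hi1).2.1 hj
      have h6 : α i = 0 := by
        by_contra h7
        exact hi2 (Finset.mem_erase.2 ⟨h5, Finsupp.mem_support_iff.2 h7⟩)
      rw [h6, pow_zero]

end Pool.Agent.GENF.H58
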