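import Pool.Agent.Helper58_NDF.MainR
import Pool.Agent.Helper56_GEN.Last

/-!
# Classes of nondegenerate polynomials

`ND` holds for polynomials with Zariski general coefficients (any support), for polynomials all of
whose faces of the Newton polytope are smooth in the torus, and for convenient polynomials whose
faces of the Newton polyhedron are smooth in the torus.
-/

set_option autoImplicit false
set_option linter.unusedVariables false
set_option linter.unusedSectionVars false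

namespace Pool.Agent.GENF.H58

open Finset Pool.Agent.Helper6_Mono Pool.Agent.Helper30_Simp
  Pool.Agent.Helper30_Simp2 Pool.Agent.GEN Pool.Agent.GEN.H56 Pool.Agent.Helper8_CR

section basic

variable {k : Type} [Field k] {σ : Type} [Fintype σ]

/-- pairing of an exponent with an integer weight -/
def zd (η : σ → ℤ) (α : σ →₀ ℕ) : ℤ := ∑ i, η i * ((α i : ℕ) : ℤ)

theorem zd_add (κ : σ → ℕ) (η : σ → ℤ) (K : ℕ) (α : σ →₀ ℕ) :
    zd (fun i => (K : ℤ) * κ i + η i) α = K * ((dot κ α : ℕ) : ℤ) + zd η α := by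
  unfold zd dot
  push_cast
  rw [Finset.mul_sum, ← Finset.sum_add_distrib]
  exact Finset.sum_congr rfl fun i _ => by ring

/-- the face of a face is a face -/
theorem fcz_fcn (M : Finset (σ →₀ ℕ)) (κ : σ → ℕ) (η : σ → ℤ) :
    ∃ K0 : ℕ, ∀ K : ℕ, K0 ≤ K →
      NDR.fcz M (fun i => (K : ℤ) * κ i + η i) = NDR.fcz (NDR.fcn M κ) η := by
  refine ⟨1 + ∑ α ∈ M, ∑ β ∈ M, (zd η β - zd η α).natAbs, fun K hK => ?_⟩
  have hb : ∀ α ∈ M, ∀ β ∈ M, zd η β - zd η α < K := by
    intro α hα β hβ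
    have h1 : (zd η β - zd η α).natAbs ≤ ∑ β ∈ M, (zd η β - zd η α).natAbs :=
      Finset.single_le_sum (f := fun β => (zd η β - zd η α).natAbs) (fun _ _ => Nat.zero_le _) hβ
    have h2 : ∑ β ∈ M, (zd η β - zd η α).natAbs ≤
        ∑ α ∈ M, ∑ β ∈ M, (zd η β - zd η α).natAbs :=
      Finset.single_le_sum (f := fun α => ∑ β ∈ M, (zd η β - zd η α).natAbs)
        (fun _ _ => Nat.zero_le _) hα
    omega
  have hb' : ∀ α, ∑ i, ((K : ℤ) * κ i + η i) * ((α i : ℕ) : ℤ) = K * ((dot κ α : ℕ) : ℤ) + zd η α :=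
    fun α => zd_add κ η K α
  have hz : ∀ α : σ →₀ ℕ, ∑ i, η i * ((α i : ℕ) : ℤ) = zd η α := fun α => rfl
  ext α
  simp only [mem_fcz, mem_fcn, hb', hz]
  constructor
  · rintro ⟨h1, h2⟩
    have h3 : ∀ β ∈ M, dot κ α ≤ dot κ β := by
      intro β hβ
      by_contra h4
      have h5 := h2 β hβ
      have h6 := hb α h1 β hβ
      have h7 : ((dot κ β : ℕ) : ℤ) + 1 ≤ dot κ α := by omega
      have h8 : (K : ℤ) * (dot κ β + 1) ≤ K * dot κ α := by
        exact mul_le_mul_of_nonneg_left h7 (by positivity)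
      nlinarith
    refine ⟨⟨h1, h3⟩, fun β hβ => ?_⟩
    have h5 := h2 β hβ.1
    have h6 : dot κ β ≤ dot κ α := hβ.2 α h1
    have h7 : dot κ α = dot κ β := le_antisymm (h3 β hβ.1) h6
    rw [h7] at h5
    linarith
  · rintro ⟨⟨h1, h2⟩, h3⟩
    refine ⟨h1, fun β hβ => ?_⟩
    by_cases h4 : dot κ β = dot κ α
    · have h5 := h3 β ⟨hβ, fun γ hγ => by rw [h4]; exact h2 γ hγ⟩
      rw [h4]
      linarith
    · have h5 := h2 β hβ
      have h6 : ((dot κ α : ℕ) : ℤ) + 1 ≤ dot κ β := by omega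
      have h7 := hb β hβ α h1
      have h8 : (K : ℤ) * (dot κ α + 1) ≤ K * dot κ β :=
        mul_le_mul_of_nonneg_left h6 (by positivity)
      nlinarith

theorem fcz_cast (M : Finset (σ →₀ ℕ)) (u : σ → ℕ) :
    NDR.fcz M (fun i => (u i : ℤ)) = NDR.fcn M u := by
  ext α
  rw [mem_fcz, mem_fcn]
  have h : ∀ β : σ →₀ ℕ, ∑ i, (u i : ℤ) * ((β i : ℕ) : ℤ) = ((dot u β : ℕ) : ℤ) := fun β => by
    unfold dot
    push_cast
    rfl
  simp only [h, Nat.cast_le]

/-- all faces of the Newton polytope smooth in the torus -/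
theorem nd_of_all {f : MvPolynomial σ k}
    (h : ∀ η : σ → ℤ, TorusSmooth (part f (NDR.fcz f.support η))) : NDR.ND f := by
  refine ⟨fun u => ?_, fun κ η _ => ?_⟩
  · rw [← fcz_cast]
    exact h _
  · obtain ⟨K0, hK⟩ := fcz_fcn f.support κ η
    rw [← hK K0 le_rfl]
    exact h _

/-- all faces of the Newton polyhedron smooth in the torus, for convenient polynomials -/
theorem nd_of_conv {f : MvPolynomial σ k} (h : NDF f)
    (hc : ∀ i, ∃ n : ℕ, Finsupp.single i n ∈ f.support) : NDR.ND f := by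
  refine ⟨fun u => ?_, fun κ η hκ => ?_⟩
  · rw [fcn_eq]
    exact h u
  · have hpos : ∀ i, 0 < κ i := by
      intro i
      obtain ⟨n, hn⟩ := hc i
      have h1 := hκ _ hn
      by_contra h2
      have h3 : κ i = 0 := by omega
      rw [show dot κ (Finsupp.single i n) = 0 from ?_] at h1
      · exact lt_irrefl _ h1
      · classical
        unfold dot
        refine Finset.sum_eq_zero fun j _ => ?_
        by_cases hj : j = i
        · rw [hj, h3, zero_mul]
        · rw [Finsupp.single_eq_of_ne hj, Nat.cast_zero, mul_zero]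
    obtain ⟨K0, hK⟩ := fcz_fcn f.support κ η
    obtain ⟨K, hK1⟩ : ∃ K, K = K0 + ∑ i, (η i).natAbs := ⟨_, rfl⟩
    have hi : ∀ i, (0 : ℤ) ≤ K * κ i + η i := by
      intro i
      have h1 : (η i).natAbs ≤ ∑ i, (η i).natAbs :=
        Finset.single_le_sum (f := fun i => (η i).natAbs) (fun _ _ => Nat.zero_le _)
          (Finset.mem_univ i)
      have h2 : ((η i).natAbs : ℤ) ≤ K := by
        have : (η i).natAbs ≤ K := by omega
        exact_mod_cast this
      have h3 : (K : ℤ) * 1 ≤ K * κ i := by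
        refine mul_le_mul_of_nonneg_left ?_ (by positivity)
        exact_mod_cast hpos i
      omega
    obtain ⟨u, hu⟩ : ∃ u : σ → ℕ, ∀ i, ((u i : ℕ) : ℤ) = K * κ i + η i :=
      ⟨fun i => (K * κ i + η i : ℤ).toNat, fun i => Int.toNat_of_nonneg (hi i)⟩
    have h1 : NDR.fcz (NDR.fcn f.support κ) η = NDR.fcn f.support u := by
      rw [← hK K (by omega), ← fcz_cast]
      congr 1
      funext i
      exact (hu i).symm
    rw [h1, fcn_eq]
    exact h u

theorem fce_ne {M : Finset (σ →₀ ℕ)} (hM : M.Nonempty) (u : σ → ℕ) : (NDR.fcn M u).Nonempty := by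
  obtain ⟨γ, hγ, hmin⟩ := Finset.exists_min_image M (fun β => dot u β) hM
  exact ⟨γ, mem_fcn.2 ⟨hγ, hmin⟩⟩

theorem fcz_ne {M : Finset (σ →₀ ℕ)} (hM : M.Nonempty) (η : σ → ℤ) : (NDR.fcz M η).Nonempty := by
  obtain ⟨γ, hγ, hmin⟩ := Finset.exists_min_image M (fun β => ∑ i, η i * ((β i : ℕ) : ℤ)) hM
  exact ⟨γ, mem_fcz.2 ⟨hγ, hmin⟩⟩

theorem nd_of_ndp {f : MvPolynomial σ k} (hf : f ≠ 0) (h : NDP f) : NDR.ND f := by
  have hM : f.support.Nonempty := by
    rw [Finset.nonempty_iff_ne_empty]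
    intro h1
    exact hf (MvPolynomial.support_eq_empty.1 h1)
  refine ⟨fun u => ?_, fun κ η hκ => ?_⟩
  · rw [prt_eq]
    exact h _ (fun α hα => (mem_fcn.1 hα).1) (fce_ne hM u)
  · rw [prt_eq]
    exact h _ (fun α hα => (mem_fcn.1 (mem_fcz.1 hα).1).1) (fcz_ne (fce_ne hM κ) η)

end basic

/-- Zariski general coefficients: for every nonempty finite set `M` of exponents there is a nonzero
polynomial `H` over `ℚ` in the coefficients such that all polynomials with support `M` over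
subfields of `ℂ` with `H ≠ 0` at the coefficients (after some rescaling) are nondegenerate -/
theorem nd_generic (τ : Type) [Fintype τ] (M : Finset (τ →₀ ℕ)) (hM : M.Nonempty) :
    ∃ H : MvPolynomial M ℚ, H ≠ 0 ∧
      ∀ (k : Type) [Field k] [Algebra k ℂ] (G : MvPolynomial τ k), G.support = M →
      ∀ (a : ℂ) (t : τ → ℂ), a ≠ 0 → (∀ i, t i ≠ 0) →
      MvPolynomial.aeval (fun α : M => a * ((α : τ →₀ ℕ).prod fun i n => t i ^ n) *
        algebraMap k ℂ (G.coeff (α : τ →₀ ℕ))) H ≠ 0 → NDR.ND G := by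
  obtain ⟨H, hH, hG⟩ := H58.gncStmt τ M
  refine ⟨H, hH, fun k _ _ G hs a t ha ht hne => ?_⟩
  have h1 := hG (MvPolynomial.C a * H43.resc t ht (MvPolynomial.map (algebraMap k ℂ) G))
    (by rw [supp_sc G ha t ht, hs]) (by
      have h2 : (fun α : M => (MvPolynomial.C a * H43.resc t ht
          (MvPolynomial.map (algebraMap k ℂ) G)).coeff (α : τ →₀ ℕ)) =
          fun α : M => a * ((α : τ →₀ ℕ).prod fun i n => t i ^ n) *
        algebraMap k ℂ (G.coeff (α : τ →₀ ℕ)) := by
        funext α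
        exact coeff_sc G a t ht α
      rw [h2]
      exact hne)
  have h3 : NDP G := ndp_of H77.tsi H67.tsd ht ha h1.1
  refine nd_of_ndp ?_ h3
  rintro rfl
  rw [MvPolynomial.support_zero] at hs
  rw [← hs] at hM
  exact Finset.not_nonempty_empty hM

end Pool.Agent.GENF.H58
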