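import Pool.Agent.Helper58_NDF.Zf
import Pool.Agent.Helper56_GEN.TorD
import Pool.Agent.Helper98_GEN.STB
import Pool.Agent.Helper60_GEN.AsmPT
import Pool.Agent.Helper63_KTB.AsmK

/-!
# The conjecture for all Newton nondegenerate polynomials, relative to the root side

`main_nd`: if all Newton nondegenerate complex polynomials have the roots of the good bases
(`Roots F`), then the conclusion of the conjecture holds for all Newton nondegenerate polynomials
over subfields of `ℂ` (and for all polynomials which are stably isomorphic to one).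
-/

set_option autoImplicit false
set_option linter.unusedVariables false

namespace Pool.Agent.GENF.H58

open PowerSeries Finset Pool.Agent.Helper6_Mono Pool.Agent.Helper30_Simp
  Pool.Agent.Helper30_Simp2 Pool.Agent.GEN Pool.Agent.GEN.H56 Pool.Agent.Helper8_CR

/-- rationality of the zeta function -/
theorem zeta_ratF {KZ : Slp} (hZ : ZfinF KZ)
    {k : Type} [Field k] [CharZero k] {σ : Type} [Fintype σ]
    {f : MvPolynomial σ k} (hf : f ≠ 0)
    (hA : NDF f) (hC : ∀ J, Conf f.support J) (B : Set ℚ) (hB1 : 1 ∉ B) (hB : ∀ x ∈ B, KZ σ f.support x) :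
    ∃ P : Finset (ℤ × ℕ), (∀ p ∈ P, p.1 < 0 ∧ 0 < p.2 ∧
      -((p.1 : ℚ) / p.2) ∈ (slopes f.support ∪ {1}) \ B) ∧ Zf f ∈ zetaRing f P := by
  obtain ⟨χ, hχ⟩ := exists_chi f
  obtain ⟨a, ha0, hRP, ha⟩ := hZ k σ (MM f) (LL f) χ f hf hA hC B hB1 (fun x hx => Or.inl (hB x hx))
  have hz : Zf f = PowerSeries.mk a := by
    ext m
    rw [Zf, PowerSeries.coeff_mk, PowerSeries.coeff_mk]
    unfold zetaCoeff
    split_ifs with hm
    · rw [hm, ha0]
    · have hω : m • ((((1 : ℚ) / m : ℚ)) : QZ) = 0 := by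
        rw [← AddCircle.coe_nsmul, nsmul_eq_mul, mul_one_div_cancel (by exact_mod_cast hm)]
        exact AddCircle.coe_period 1
      have hL : Lpow f (-(m * Nat.card σ)) = ((LL f)⁻¹ : (MM f)ˣ) ^ (m * Nat.card σ) := by
        unfold Lpow
        rw [← Units.val_pow_eq_pow_val, inv_pow, ← zpow_natCast, ← zpow_neg]
        push_cast
        rfl
      rw [hχ m hm hω, hL, mul_comm, ha m hm hω, Nat.card_eq_fintype_card]
  obtain ⟨Dn, hDn, Q, hQ⟩ := hRP.toRG
  have hpos : ∀ x ∈ (slopes f.support ∪ {1}) \ B, (0 : ℚ) < x := by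
    rintro x ⟨hx | hx, -⟩
    · exact slopes_pos hx
    · rw [Set.mem_singleton_iff.1 hx]
      exact one_pos
  obtain ⟨P, hP, E, hE, hE1⟩ := denoms_inv (LL f) hpos hDn
  refine ⟨P, hP, ?_⟩
  have e1 : Zf f = E * (Q : PowerSeries (MM f)) := by
    rw [← hQ, ← mul_assoc, hE1, one_mul, hz]
  rw [e1]
  have hgen : ({PowerSeries.X} ∪ {x : PowerSeries (MM f) | ∃ p ∈ P,
        x * (1 - PowerSeries.C ((LL f ^ p.1 : (MM f)ˣ) : MM f) * PowerSeries.X ^ p.2) = 1})
      = gens f P := rfl
  rw [hgen] at hE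
  show E * (Q : PowerSeries (MM f)) ∈ Algebra.adjoin (MM f) (gens f P)
  refine mul_mem hE ?_
  have hX : (PowerSeries.X : PowerSeries (MM f)) ∈ Algebra.adjoin (MM f) (gens f P) :=
    Algebra.subset_adjoin (Or.inl rfl)
  clear hQ e1
  induction Q using Polynomial.induction_on' with
  | add p q hp hq =>
    rw [Polynomial.coe_add]
    exact add_mem hp hq
  | monomial n c =>
    rw [← Polynomial.C_mul_X_pow_eq_monomial, Polynomial.coe_mul, Polynomial.coe_C,
      Polynomial.coe_pow, Polynomial.coe_X]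
    exact mul_mem (Subalgebra.algebraMap_mem _ c) (pow_mem hX n)

/-- **the main theorem**, relative to the module statements -/
theorem main_ndf {KZ : Slp} (hZ : ZfinF KZ) {k : Type} [Field k] [Algebra k ℂ]
    {σ : Type} [Fintype σ] {f : MvPolynomial σ k} (hf : ∀ c : k, f ≠ MvPolynomial.C c)
    (hND : NDF f) (hRts : Roots (MvPolynomial.map (algebraMap k ℂ) f)) (hC : ∀ J, Conf f.support J) (hK : ∀ x : ℚ, x ≠ 1 → Killed f.support x → KZ σ f.support x) :
    Helper8_CR.Mon f := by
  classical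
  have hinj : Function.Injective (algebraMap k ℂ) := (algebraMap k ℂ).injective
  have : CharZero k := (RingHom.charZero_iff hinj).2 inferInstance
  have hsupp : (MvPolynomial.map (algebraMap k ℂ) f).support = f.support :=
    MvPolynomial.support_map_of_injective _ hinj
  have hf0 : f ≠ 0 := by
    have := hf 0
    rwa [map_zero] at this
  have hf' : ∀ c : ℂ, MvPolynomial.map (algebraMap k ℂ) f ≠ MvPolynomial.C c := by
    intro c hc
    have h1 : f.support ⊆ {0} := by
      rw [← hsupp, hc]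
      intro α hα
      rw [MvPolynomial.mem_support_iff, MvPolynomial.coeff_C] at hα
      by_contra h2
      rw [Finset.mem_singleton] at h2
      rw [if_neg (Ne.symm h2)] at hα
      exact hα rfl
    apply hf (MvPolynomial.coeff 0 f)
    ext α
    rw [MvPolynomial.coeff_C]
    split_ifs with h2
    · rw [← h2]
    · by_contra h3
      have h4 := h1 (MvPolynomial.mem_support_iff.2 h3)
      exact h2 (Finset.mem_singleton.1 h4).symm
  obtain ⟨B, hB⟩ : ∃ B : Set ℚ, B = {x | x ≠ 1 ∧ Killed f.support x} := ⟨_, rfl⟩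
  obtain ⟨P, hP, hZ'⟩ := zeta_ratF hZ hf0 hND hC B (fun h => (hB ▸ h).1 rfl)
    (fun x hx => hK x (hB ▸ hx).1 (hB ▸ hx).2)
  have hroot : ∀ x ∈ (slopes f.support ∪ {1}) \ B,
      (bfun (MvPolynomial.map (algebraMap k ℂ) f)).eval (-(x : ℂ)) = 0 := by
    rintro x ⟨-, hx⟩
    by_cases hx1 : x = 1
    · rw [hx1, Rat.cast_one]
      exact root_one hf'
    · have h1 : ¬ Killed f.support x := fun h => hx (hB ▸ ⟨hx1, h⟩)
      unfold Killed at h1
      push Not at h1
      obtain ⟨κ, N, Bs, hFB, hx2, hno⟩ := h1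
      have h2 := hRts κ N Bs
      rw [hsupp] at h2
      have h3 := h2 hFB.pos hFB.ge hFB.sub hFB.ne hFB.eq hFB.ind hFB.flat (by
        intro A hAB j hj1 hj2 hj3
        obtain ⟨l, hl, hlj⟩ := hno A hAB j ⟨hj1, hj2, hj3⟩
        exact ⟨l, hlj, hl.1, hl.2.1, hl.2.2⟩)
      have hN0 : (N : ℂ) ≠ 0 := by exact_mod_cast hFB.pos.ne'
      have h4 : (x : ℂ) = ((∑ i, κ i : ℕ) : ℂ) / (N : ℕ) := by
        rw [eq_div_iff hN0]
        have : (((∑ i, κ i : ℕ) : ℚ) : ℂ) = ((x * N : ℚ) : ℂ) := by rw [hx2]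
        rw [Rat.cast_natCast, Rat.cast_mul, Rat.cast_natCast] at this
        exact this.symm
      rw [h4]
      exact h3
  refine ⟨P, fun p hp => ?_, hZ'⟩
  obtain ⟨h1, h2, h3⟩ := hP p hp
  refine ⟨h2, ?_⟩
  have h4 := hroot _ h3
  have h5 : (-(((-((p.1 : ℚ) / (p.2 : ℚ)) : ℚ) : ℚ) : ℂ)) = (p.1 : ℂ) / (p.2 : ℂ) := by
    push_cast
    ring
  rw [h5] at h4
  exact h4



/-! ## Extension of the constants and stabilization -/

theorem smooth_map {k : Type} [Field k] [Algebra k ℂ] {σ : Type} [Fintype σ]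
    {g : MvPolynomial σ k} (hg : TorusSmooth g) :
    TorusSmooth (MvPolynomial.map (algebraMap k ℂ) g) := by
  unfold TorusSmooth at hg ⊢
  rw [Ideal.mem_radical_iff] at hg ⊢
  obtain ⟨n, hn⟩ := hg
  refine ⟨n, ?_⟩
  have hle : Ideal.span ({g} ∪ Set.range fun j => MvPolynomial.pderiv j g) ≤
      (Ideal.span ({MvPolynomial.map (algebraMap k ℂ) g} ∪ Set.range fun j =>
        MvPolynomial.pderiv j (MvPolynomial.map (algebraMap k ℂ) g))).comap
        (MvPolynomial.map (algebraMap k ℂ)) := by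
    rw [Ideal.span_le]
    rintro y (hy | ⟨j, rfl⟩)
    · rw [Set.mem_singleton_iff] at hy
      rw [hy]
      exact Ideal.subset_span (Or.inl rfl)
    · refine Ideal.subset_span (Or.inr ⟨j, ?_⟩)
      exact MvPolynomial.pderiv_map
  have h1 := hle hn
  rw [Ideal.mem_comap, map_pow, map_prod] at h1
  simpa only [MvPolynomial.map_X] using h1

theorem ndf_map {k : Type} [Field k] [Algebra k ℂ] {σ : Type} [Fintype σ]
    {f : MvPolynomial σ k} (hf : NDF f) : NDF (MvPolynomial.map (algebraMap k ℂ) f) := by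
  intro u
  have hsupp : (MvPolynomial.map (algebraMap k ℂ) f).support = f.support :=
    MvPolynomial.support_map_of_injective _ (algebraMap k ℂ).injective
  rw [hsupp, H49.ndt_part_map]
  exact smooth_map (hf u)

section stabil

variable {k : Type} [Field k] {σ : Type} [Fintype σ]

theorem smooth_rename {s : ℕ} {g : MvPolynomial σ k} (hg : TorusSmooth g) :
    TorusSmooth (MvPolynomial.rename (Sum.inl : σ → SV σ s) g) := by
  unfold TorusSmooth at hg ⊢
  rw [Ideal.mem_radical_iff] at hg ⊢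
  obtain ⟨n, hn⟩ := hg
  refine ⟨n, ?_⟩
  have hle : Ideal.span ({g} ∪ Set.range fun j => MvPolynomial.pderiv j g) ≤
      (Ideal.span ({MvPolynomial.rename (Sum.inl : σ → SV σ s) g} ∪ Set.range fun j =>
        MvPolynomial.pderiv j (MvPolynomial.rename (Sum.inl : σ → SV σ s) g))).comap
        (MvPolynomial.rename (Sum.inl : σ → SV σ s)) := by
    rw [Ideal.span_le]
    rintro y (hy | ⟨j, rfl⟩)
    · rw [Set.mem_singleton_iff] at hy
      rw [hy]
      exact Ideal.subset_span (Or.inl rfl)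
    · refine Ideal.subset_span (Or.inr ⟨Sum.inl j, ?_⟩)
      exact MvPolynomial.pderiv_rename Sum.inl_injective j g
  have h1 := hle hn
  rw [Ideal.mem_comap, map_pow, map_prod] at h1
  simp only [MvPolynomial.rename_X] at h1
  rw [Fintype.prod_sum_type, mul_pow]
  exact Ideal.mul_mem_right _ _ h1

theorem dot_md {s : ℕ} (u : SV σ s → ℕ) (α : σ →₀ ℕ) :
    dot u (Finsupp.mapDomain (Sum.inl : σ → SV σ s) α) = dot (fun i => u (Sum.inl i)) α := by
  unfold dot
  rw [Fintype.sum_sum_type]
  have h1 : ∑ j : Fin s ⊕ Fin s, u (Sum.inr j) *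
      (((Finsupp.mapDomain (Sum.inl : σ → SV σ s) α) (Sum.inr j) : ℕ) : ℕ) = 0 :=
    Finset.sum_eq_zero fun j _ => by rw [H98.md_apply, mul_zero]
  have h2 : ∀ i : σ, (Finsupp.mapDomain (Sum.inl : σ → SV σ s) α) (Sum.inl i) = α i := fun i =>
    Finsupp.mapDomain_apply Sum.inl_injective _ _
  simp only [h2]
  simp only [Nat.cast_id] at h1 ⊢
  rw [h1, add_zero]

theorem mem_fce {M : Finset (σ →₀ ℕ)} {u : σ → ℕ} {α : σ →₀ ℕ} :
    α ∈ fce M u ↔ α ∈ M ∧ ∀ β ∈ M, dot u α ≤ dot u β := by
  simp only [fce, Finset.mem_filter]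
  exact ⟨fun h => h.2, fun h => ⟨h.1, h⟩⟩

theorem ndf_stab {G : MvPolynomial σ k} (hG : NDF G) (s : ℕ) : NDF (stab G s) := by
  classical
  intro u
  have hej : ∀ j : Fin s, H98.ej σ j ∈ (stab G s).support := fun j => by
    rw [MvPolynomial.mem_support_iff, H98.coeff_ej]
    exact one_ne_zero
  have hmd : ∀ α, α ∈ G.support ↔
      Finsupp.mapDomain (Sum.inl : σ → SV σ s) α ∈ (stab G s).support := fun α => by
    rw [MvPolynomial.mem_support_iff, MvPolynomial.mem_support_iff, H98.coeff_md]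
  obtain ⟨I, hI⟩ : ∃ I, I = fce (stab G s).support u := ⟨_, rfl⟩
  rw [← hI]
  by_cases hc : ∃ j : Fin s, H98.ej σ j ∈ I
  · obtain ⟨j, hj⟩ := hc
    have hd : MvPolynomial.pderiv (Sum.inr (Sum.inl j)) (part (stab G s) I) =
        MvPolynomial.X (Sum.inr (Sum.inr j)) := by
      unfold part
      rw [map_sum, Finset.sum_eq_single_of_mem _ hj]
      · rw [H98.coeff_ej, MvPolynomial.pderiv_monomial, H98.ej_apply, if_pos rfl, Nat.cast_one,
          mul_one]
        unfold H98.ej
        rw [add_tsub_cancel_left]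
        rfl
      · intro β hβ hne
        rw [hI, mem_fce] at hβ
        obtain ⟨x, rfl⟩ := H98.gx_surj G s β hβ.1
        rw [MvPolynomial.pderiv_monomial]
        rcases x with α | i
        · have h1 : (H98.gx G s (Sum.inl α)) (Sum.inr (Sum.inl j)) = 0 := H98.md_apply _ _
          rw [h1, Nat.cast_zero, mul_zero, map_zero]
        · have h1 : (H98.gx G s (Sum.inr i)) (Sum.inr (Sum.inl j)) = 0 := by
            show H98.ej σ i (Sum.inr (Sum.inl j)) = 0
            rw [H98.ej_apply, if_neg]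
            rintro rfl
            exact hne rfl
          rw [h1, Nat.cast_zero, mul_zero, map_zero]
    unfold TorusSmooth
    refine Ideal.le_radical ?_
    have h1 : (MvPolynomial.X (Sum.inr (Sum.inr j)) : MvPolynomial (SV σ s) k) ∈
        Ideal.span ({part (stab G s) I} ∪ Set.range fun i =>
          MvPolynomial.pderiv i (part (stab G s) I)) := by
      rw [← hd]
      exact Ideal.subset_span (Or.inr ⟨_, rfl⟩)
    rw [← Finset.mul_prod_erase _ _ (Finset.mem_univ (Sum.inr (Sum.inr j) : SV σ s))]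
    exact Ideal.mul_mem_right _ _ h1
  · have hI' : I = (fce G.support fun i => u (Sum.inl i)).image
        (Finsupp.mapDomain (Sum.inl : σ → SV σ s)) := by
      ext β
      rw [Finset.mem_image]
      constructor
      · intro hβ
        have hβ' := hβ
        rw [hI, mem_fce] at hβ'
        obtain ⟨x, rfl⟩ := H98.gx_surj G s β hβ'.1
        rcases x with α | i
        · refine ⟨α, mem_fce.2 ⟨α.2, fun β hβ2 => ?_⟩, rfl⟩
          have h1 := hβ'.2 _ ((hmd β).1 hβ2)
          rw [dot_md] at h1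
          have h2 : dot u (H98.gx G s (Sum.inl α)) = dot (fun i => u (Sum.inl i)) (α : σ →₀ ℕ) :=
            dot_md u _
          rw [h2] at h1
          exact h1
        · exact absurd ⟨i, hβ⟩ hc
      · rintro ⟨α, hα, rfl⟩
        rw [mem_fce] at hα
        rw [hI, mem_fce]
        refine ⟨(hmd α).1 hα.1, ?_⟩
        -- the minimum is not attained at some `ej`
        obtain ⟨γ, hγ, hmin⟩ := Finset.exists_min_image (stab G s).support (fun β => dot u β)
          ⟨_, (hmd α).1 hα.1⟩
        have hγI : γ ∈ I := by rw [hI, mem_fce]; exact ⟨hγ, hmin⟩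
        intro β hβ
        refine le_trans ?_ (hmin β hβ)
        obtain ⟨x, rfl⟩ := H98.gx_surj G s γ hγ
        rcases x with α' | i
        · have h2 : dot u (H98.gx G s (Sum.inl α')) = dot (fun i => u (Sum.inl i)) (α' : σ →₀ ℕ) :=
            dot_md u _
          rw [h2, dot_md]
          exact hα.2 _ α'.2
        · exact absurd ⟨i, hγI⟩ hc
    have hp : part (stab G s) I = MvPolynomial.rename (Sum.inl : σ → SV σ s)
        (part G (fce G.support fun i => u (Sum.inl i))) := by
      unfold part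
      rw [hI', Finset.sum_image fun a _ b _ h =>
        Finsupp.mapDomain_injective Sum.inl_injective h, map_sum]
      refine Finset.sum_congr rfl fun α _ => ?_
      rw [H98.coeff_md, MvPolynomial.rename_monomial]
    rw [hp]
    exact smooth_rename (hG _)

end stabil

/-- **the conjecture for all Newton nondegenerate polynomials**, relative to the root side -/
theorem main_nd (hR : ∀ (σ : Type) [Fintype σ] (F : MvPolynomial σ ℂ), NDF F → Roots F)
    {k : Type} [Field k] [Algebra k ℂ] {σ : Type} [Fintype σ] {f : MvPolynomial σ k}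
    (hf : ∀ c : k, f ≠ MvPolynomial.C c) (hN : NDF f) : Mon f :=
  main_ndf (zfinFI H60.zaiStmt) hf hN (hR σ _ (ndf_map hN)) (fun J => cngStmt σ f.support J)
    fun x _ hk => Pool.Agent.KTB.H63.kpiStmt σ f.support x hk

/-- stable form -/
theorem main_nd_stab (hR : ∀ (σ : Type) [Fintype σ] (F : MvPolynomial σ ℂ), NDF F → Roots F)
    {k : Type} [Field k] [Algebra k ℂ] {σ τ : Type} [Finite σ] [Fintype τ]
    (f : MvPolynomial σ k) (hf : ∀ c : k, f ≠ MvPolynomial.C c) (r : ℕ)
    (G : MvPolynomial τ k) (hG : NDF G)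
    (Φ : MvPolynomial τ k ≃ₐ[k] MvPolynomial (SV σ r) k) (hΦ : Φ G = stab f r) : Mon f := by
  have hGc : ∀ c : k, G ≠ MvPolynomial.C c := iso_ne_C Φ (by rw [hΦ]; exact stab_ne_C hf r)
  exact stable_closure4 f hf r G Φ hΦ fun s _ _ =>
    main_nd hR (stab_ne_C hGc s) (ndf_stab hG s)

end Pool.Agent.GENF.H58
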