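import Pool.Agent.NDR.Defs
import Pool.Agent.Helper58_NDF.Main

/-!
# The conjecture for all nondegenerate polynomials, relative to the root side of squad NDR

`main_ndr`: `RootsStmt` (output of squad NDR) implies the conclusion of the conjecture for all
polynomials over subfields of `ℂ` which are nondegenerate in the sense of `NDR.ND`;
`main_ndr_stab`: the same for all polynomials which are stably isomorphic to one.
-/

set_option autoImplicit false
set_option linter.unusedVariables false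
set_option linter.unusedSectionVars false

namespace Pool.Agent.GENF.H58

open PowerSeries Finset Pool.Agent.Helper6_Mono Pool.Agent.Helper30_Simp
  Pool.Agent.Helper30_Simp2 Pool.Agent.GEN Pool.Agent.GEN.H56 Pool.Agent.Helper8_CR

section basic

variable {k : Type} [Field k] {σ : Type} [Fintype σ]

theorem prt_eq (f : MvPolynomial σ k) (S : Finset (σ →₀ ℕ)) : NDR.prt f S = part f S := rfl

theorem mem_fcn {M : Finset (σ →₀ ℕ)} {u : σ → ℕ} {α : σ →₀ ℕ} :
    α ∈ NDR.fcn M u ↔ α ∈ M ∧ ∀ β ∈ M, dot u α ≤ dot u β := by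
  unfold NDR.fcn
  rw [Finset.mem_filter]

theorem mem_fcz {M : Finset (σ →₀ ℕ)} {η : σ → ℤ} {α : σ →₀ ℕ} :
    α ∈ NDR.fcz M η ↔ α ∈ M ∧ ∀ β ∈ M,
      ∑ i, η i * ((α i : ℕ) : ℤ) ≤ ∑ i, η i * ((β i : ℕ) : ℤ) := by
  unfold NDR.fcz
  rw [Finset.mem_filter]

theorem fcn_eq (M : Finset (σ →₀ ℕ)) (u : σ → ℕ) : NDR.fcn M u = fce M u := by
  ext α
  rw [mem_fcn, mem_fce]

theorem nd_ndf {f : MvPolynomial σ k} (hf : NDR.ND f) : NDF f := by
  intro u
  rw [← fcn_eq]
  exact hf.1 u

end basic

theorem nd_map {k : Type} [Field k] [Algebra k ℂ] {σ : Type} [Fintype σ]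
    {f : MvPolynomial σ k} (hf : NDR.ND f) :
    NDR.ND (MvPolynomial.map (algebraMap k ℂ) f) := by
  have hsupp : (MvPolynomial.map (algebraMap k ℂ) f).support = f.support :=
    MvPolynomial.support_map_of_injective _ (algebraMap k ℂ).injective
  refine ⟨fun u => ?_, fun κ η hκ => ?_⟩
  · rw [hsupp, prt_eq, H49.ndt_part_map]
    exact smooth_map (hf.1 u)
  · rw [hsupp] at hκ ⊢
    rw [prt_eq, H49.ndt_part_map]
    exact smooth_map (hf.2 κ η hκ)

section stabil

variable {k : Type} [Field k] {σ : Type} [Fintype σ]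

theorem ej_mem (G : MvPolynomial σ k) (s : ℕ) (j : Fin s) : H98.ej σ j ∈ (stab G s).support := by
  rw [MvPolynomial.mem_support_iff, H98.coeff_ej]
  exact one_ne_zero

theorem md_mem (G : MvPolynomial σ k) (s : ℕ) (α : σ →₀ ℕ) : α ∈ G.support ↔
    Finsupp.mapDomain (Sum.inl : σ → SV σ s) α ∈ (stab G s).support := by
  rw [MvPolynomial.mem_support_iff, MvPolynomial.mem_support_iff, H98.coeff_md]

/-- a part of `stab G s` which contains one of the new monomials is smooth in the torus -/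
theorem part_ej {G : MvPolynomial σ k} {s : ℕ} {I : Finset (SV σ s →₀ ℕ)}
    (hIs : I ⊆ (stab G s).support) {j : Fin s} (hj : H98.ej σ j ∈ I) :
    TorusSmooth (part (stab G s) I) := by
  classical
  have hd : MvPolynomial.pderiv (Sum.inr (Sum.inl j)) (part (stab G s) I) =
      MvPolynomial.X (Sum.inr (Sum.inr j)) := by
    unfold part
    rw [map_sum, Finset.sum_eq_single_of_mem _ hj]
    · rw [H98.coeff_ej, MvPolynomial.pderiv_monomial, H98.ej_apply, if_pos rfl, Nat.cast_one,
        mul_one]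
      unfold H98.ej
      rw [add_tsub_cancel_left]
      rfl
    · intro β hβ hne
      obtain ⟨x, rfl⟩ := H98.gx_surj G s β (hIs hβ)
      rw [MvPolynomial.pderiv_monomial]
      rcases x with α | i
      · have h1 : (H98.gx G s (Sum.inl α)) (Sum.inr (Sum.inl j)) = 0 := H98.md_apply _ _
        rw [h1, Nat.cast_zero, mul_zero, map_zero]
      · have h1 : (H98.gx G s (Sum.inr i)) (Sum.inr (Sum.inl j)) = 0 := by
          show H98.ej σ i (Sum.inr (Sum.inl j)) = 0
          rw [H98.ej_apply, if_neg]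
          rintro rfl
          exact hne rfl
        rw [h1, Nat.cast_zero, mul_zero, map_zero]
  unfold TorusSmooth
  refine Ideal.le_radical ?_
  have h1 : (MvPolynomial.X (Sum.inr (Sum.inr j)) : MvPolynomial (SV σ s) k) ∈
      Ideal.span ({part (stab G s) I} ∪ Set.range fun i =>
        MvPolynomial.pderiv i (part (stab G s) I)) := by
    rw [← hd]
    exact Ideal.subset_span (Or.inr ⟨_, rfl⟩)
  rw [← Finset.mul_prod_erase _ _ (Finset.mem_univ (Sum.inr (Sum.inr j) : SV σ s))]
  exact Ideal.mul_mem_right _ _ h1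

/-- the part of `stab G s` over old monomials -/
theorem part_img {G : MvPolynomial σ k} {s : ℕ} {I : Finset (SV σ s →₀ ℕ)}
    {I' : Finset (σ →₀ ℕ)} [DecidableEq (SV σ s →₀ ℕ)]
    (hI : I = I'.image (Finsupp.mapDomain (Sum.inl : σ → SV σ s)))
    (h : TorusSmooth (part G I')) : TorusSmooth (part (stab G s) I) := by
  have hp : part (stab G s) I = MvPolynomial.rename (Sum.inl : σ → SV σ s) (part G I') := by
    unfold part
    rw [hI, Finset.sum_image fun a _ b _ h =>
      Finsupp.mapDomain_injective Sum.inl_injective h, map_sum]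
    refine Finset.sum_congr rfl fun α _ => ?_
    rw [H98.coeff_md, MvPolynomial.rename_monomial]
  rw [hp]
  exact smooth_rename h

theorem sum_md {s : ℕ} (η : SV σ s → ℤ) (α : σ →₀ ℕ) :
    ∑ i, η i * (((Finsupp.mapDomain (Sum.inl : σ → SV σ s) α) i : ℕ) : ℤ) =
      ∑ i, η (Sum.inl i) * ((α i : ℕ) : ℤ) := by
  rw [Fintype.sum_sum_type]
  have h1 : ∑ j : Fin s ⊕ Fin s, η (Sum.inr j) *
      (((Finsupp.mapDomain (Sum.inl : σ → SV σ s) α) (Sum.inr j) : ℕ) : ℤ) = 0 :=
    Finset.sum_eq_zero fun j _ => by rw [H98.md_apply, Nat.cast_zero, mul_zero]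
  have h2 : ∀ i : σ, (Finsupp.mapDomain (Sum.inl : σ → SV σ s) α) (Sum.inl i) = α i := fun i =>
    Finsupp.mapDomain_apply Sum.inl_injective _ _
  simp only [h2]
  rw [h1, add_zero]

theorem nd_stab {G : MvPolynomial σ k} (hG : NDR.ND G) (s : ℕ) : NDR.ND (stab G s) := by
  classical
  refine ⟨fun u => ?_, fun κ η hκ => ?_⟩
  · rw [fcn_eq]
    exact ndf_stab (nd_ndf hG) s u
  · obtain ⟨S, hS⟩ : ∃ S, S = NDR.fcn (stab G s).support κ := ⟨_, rfl⟩
    obtain ⟨I, hI⟩ : ∃ I, I = NDR.fcz S η := ⟨_, rfl⟩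
    rw [← hS, ← hI, prt_eq]
    have hIS : I ⊆ S := fun α hα => by
      rw [hI, mem_fcz] at hα
      exact hα.1
    have hSs : S ⊆ (stab G s).support := fun α hα => by
      rw [hS, mem_fcn] at hα
      exact hα.1
    by_cases hc : ∃ j : Fin s, H98.ej σ j ∈ I
    · obtain ⟨j, hj⟩ := hc
      exact part_ej (hIS.trans hSs) hj
    · have hκ' : ∀ α ∈ G.support, 0 < dot (fun i => κ (Sum.inl i)) α := fun α hα => by
        rw [← dot_md]
        exact hκ _ ((md_mem G s α).1 hα)
      refine part_img (I' := NDR.fcz (NDR.fcn G.support fun i => κ (Sum.inl i))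
        fun i => η (Sum.inl i)) ?_ (hG.2 _ _ hκ')
      -- old monomials of `I`
      have hold : ∀ β ∈ I, ∃ α ∈ G.support,
          β = Finsupp.mapDomain (Sum.inl : σ → SV σ s) α := fun β hβ => by
        obtain ⟨x, rfl⟩ := H98.gx_surj G s β (hSs (hIS hβ))
        rcases x with α | i
        · exact ⟨α, α.2, rfl⟩
        · exact absurd ⟨i, hβ⟩ hc
      ext β
      rw [Finset.mem_image]
      constructor
      · intro hβ
        obtain ⟨α, hα, rfl⟩ := hold β hβ
        refine ⟨α, ?_, rfl⟩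
        have h1 := hIS hβ
        rw [hS, mem_fcn] at h1
        have h2 := hβ
        rw [hI, mem_fcz] at h2
        rw [mem_fcz, mem_fcn]
        refine ⟨⟨hα, fun γ hγ => ?_⟩, fun γ hγ => ?_⟩
        · have h3 := h1.2 _ ((md_mem G s γ).1 hγ)
          rwa [dot_md, dot_md] at h3
        · rw [mem_fcn] at hγ
          have h3 : Finsupp.mapDomain (Sum.inl : σ → SV σ s) γ ∈ S := by
            rw [hS, mem_fcn]
            refine ⟨(md_mem G s γ).1 hγ.1, fun δ hδ => ?_⟩
            have h4 := h1.2 δ hδ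
            refine le_trans ?_ h4
            rw [dot_md, dot_md]
            exact hγ.2 α hα
          have h4 := h2.2 _ h3
          rwa [sum_md, sum_md] at h4
      · rintro ⟨α, hα, rfl⟩
        rw [mem_fcz, mem_fcn] at hα
        -- `I` is not empty
        have hne : (stab G s).support.Nonempty := ⟨_, (md_mem G s α).1 hα.1.1⟩
        obtain ⟨γ0, hγ0, hmin0⟩ := Finset.exists_min_image (stab G s).support
          (fun β => dot κ β) hne
        have hSne : S.Nonempty := ⟨γ0, by rw [hS, mem_fcn]; exact ⟨hγ0, hmin0⟩⟩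
        obtain ⟨γ, hγ, hmin⟩ := Finset.exists_min_image S
          (fun β => ∑ i, η i * ((β i : ℕ) : ℤ)) hSne
        have hγI : γ ∈ I := by rw [hI, mem_fcz]; exact ⟨hγ, hmin⟩
        obtain ⟨α0, hα0, rfl⟩ := hold γ hγI
        have hγ1 := hγ
        rw [hS, mem_fcn] at hγ1
        have hα0f : α0 ∈ NDR.fcn G.support fun i => κ (Sum.inl i) := by
          rw [mem_fcn]
          refine ⟨hα0, fun β hβ => ?_⟩
          have h3 := hγ1.2 _ ((md_mem G s β).1 hβ)
          rwa [dot_md, dot_md] at h3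
        have hαS : Finsupp.mapDomain (Sum.inl : σ → SV σ s) α ∈ S := by
          rw [hS, mem_fcn]
          refine ⟨(md_mem G s α).1 hα.1.1, fun δ hδ => le_trans ?_ (hγ1.2 δ hδ)⟩
          rw [dot_md, dot_md]
          exact hα.1.2 α0 hα0
        rw [hI, mem_fcz]
        refine ⟨hαS, fun δ hδ => le_trans ?_ (hmin δ hδ)⟩
        rw [sum_md, sum_md]
        exact hα.2 α0 hα0f

end stabil

theorem rts_roots {σ : Type} [Fintype σ] {F : MvPolynomial σ ℂ} (h : NDR.Rts F) : Roots F := h

/-- **the conjecture for all nondegenerate polynomials**, relative to the root side -/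
theorem main_ndr (hR : NDR.RootsStmt)
    {k : Type} [Field k] [Algebra k ℂ] {σ : Type} [Fintype σ] {f : MvPolynomial σ k}
    (hf : ∀ c : k, f ≠ MvPolynomial.C c) (hN : NDR.ND f) : Mon f :=
  main_ndf (zfinFI H60.zaiStmt) hf (nd_ndf hN) (rts_roots (hR σ _ (nd_map hN)))
    (fun J => cngStmt σ f.support J)
    fun x _ hk => Pool.Agent.KTB.H63.kpiStmt σ f.support x hk

/-- stable form -/
theorem main_ndr_stab (hR : NDR.RootsStmt)
    {k : Type} [Field k] [Algebra k ℂ] {σ τ : Type} [Finite σ] [Fintype τ]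
    (f : MvPolynomial σ k) (hf : ∀ c : k, f ≠ MvPolynomial.C c) (r : ℕ)
    (G : MvPolynomial τ k) (hG : NDR.ND G)
    (Φ : MvPolynomial τ k ≃ₐ[k] MvPolynomial (SV σ r) k) (hΦ : Φ G = stab f r) : Mon f := by
  have hGc : ∀ c : k, G ≠ MvPolynomial.C c := iso_ne_C Φ (by rw [hΦ]; exact stab_ne_C hf r)
  exact stable_closure4 f hf r G Φ hΦ fun s _ _ =>
    main_ndr hR (stab_ne_C hGc s) (nd_stab hG s)

end Pool.Agent.GENF.H58
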