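import Pool.Agent.Helper58_NDF.Final
import Pool.Agent.Helper70_Simp.Ndeg

/-!
# Simplicial nondegenerate polynomials are nondegenerate in the sense of `NDR.ND`
-/

set_option autoImplicit false
set_option linter.unusedVariables false
set_option linter.unusedSectionVars false

namespace Pool.Agent.GENF.H58

open Finset Pool.Agent.Helper6_Mono Pool.Agent.Helper30_Simp
  Pool.Agent.Helper30_Simp2 Pool.Agent.GEN Pool.Agent.GEN.H56 Pool.Agent.Helper8_CR

section basic

variable {k : Type} [Field k] [CharZero k] {σ : Type} [Fintype σ]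

theorem dot_cast (u : σ → ℕ) (β : σ →₀ ℕ) :
    dot (fun i => (u i : ℝ)) β = ((dot u β : ℕ) : ℝ) := by
  rw [dot, dot]
  push_cast
  rfl

/-- nonempty sets of exponents on a face of positive level are independent -/
theorem indep_of_simplicial {M : Finset (σ →₀ ℕ)} (hS : Simplicial M) {u : σ → ℕ}
    (hu : ∀ α ∈ M, 0 < dot u α) {I : Finset (σ →₀ ℕ)} (hI : I ⊆ NDR.fcn M u) :
    LinearIndependent ℚ (fun α : I => fun i => ((α : σ →₀ ℕ) i : ℚ)) := by
  have h1 := hS (fun i => (u i : ℝ)) (fun i => Nat.cast_nonneg _) (fun α hα => by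
    rw [dot_cast]
    exact_mod_cast hu α hα)
  have hmem : ∀ α ∈ I, α ∈ face M (fun i => (u i : ℝ)) := fun α hα => by
    have h2 := mem_fcn.1 (hI hα)
    exact ⟨h2.1, fun β hβ => by
      rw [dot_cast, dot_cast, Nat.cast_le]
      exact h2.2 β hβ⟩
  have h2 : LinearIndependent ℝ (fun α : I => fun i => ((α : σ →₀ ℕ) i : ℝ)) :=
    h1.comp (fun α : I => (⟨α.1, hmem α.1 α.2⟩ : face M (fun i => (u i : ℝ))))
      (fun a b hab => by
        have := congrArg Subtype.val hab
        exact Subtype.ext this)
  have h3 : LinearIndependent ℚ (fun α : I => fun i => ((α : σ →₀ ℕ) i : ℝ)) :=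
    h2.restrict_scalars (R := ℚ) (by
      intro a b hab
      have : ((a : ℚ) • (1 : ℝ)) = b • (1 : ℝ) := hab
      rw [Rat.smul_one_eq_cast, Rat.smul_one_eq_cast] at this
      exact_mod_cast this)
  let c : (σ → ℚ) →ₗ[ℚ] (σ → ℝ) :=
    { toFun := fun v i => (v i : ℝ)
      map_add' := fun v w => by
        funext i
        simp
      map_smul' := fun r v => by
        funext i
        simp [Rat.smul_def] }
  refine LinearIndependent.of_comp c ?_
  have h4 : (c ∘ fun α : I => fun i => ((α : σ →₀ ℕ) i : ℚ))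
      = fun α : I => fun i => ((α : σ →₀ ℕ) i : ℝ) := by
    funext α i
    show (((α : σ →₀ ℕ) i : ℚ) : ℝ) = _
    norm_cast
  rw [h4]
  exact h3

/-- simplicial nondegenerate polynomials in the sense of `Helper30_Simp` -/
theorem nd_of_simplicial {f : MvPolynomial σ k} (hf : f ≠ 0) (hS : Simplicial f.support)
    (hN : Nondeg f) : NDR.ND f := by
  classical
  have hM : f.support.Nonempty := by
    rw [Finset.nonempty_iff_ne_empty]
    intro h1
    exact hf (MvPolynomial.support_eq_empty.1 h1)
  have hsub : ∀ u : σ → ℕ, NDR.fcn f.support u ⊆ f.support := fun u α hα => (mem_fcn.1 hα).1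
  refine ⟨fun u => ?_, fun κ η hκ => ?_⟩
  · rw [prt_eq]
    by_cases h0 : ∀ α ∈ f.support, 0 < dot u α
    · exact H70.torusSmooth_of_indep (fce_ne hM u) (hsub u)
        (indep_of_simplicial hS h0 (subset_refl _))
    · push Not at h0
      obtain ⟨α0, hα0, h1⟩ := h0
      have h2 : dot u α0 = 0 := by omega
      obtain ⟨A, hA⟩ : ∃ A : Finset σ, ∀ i, i ∈ A ↔ u i ≠ 0 :=
        ⟨Finset.univ.filter fun i => u i ≠ 0, fun i => by simp⟩
      have hz : ∀ α : σ →₀ ℕ, dot u α = 0 ↔ ∀ i ∈ A, α i = 0 := by
        intro α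
        rw [dot, Finset.sum_eq_zero_iff]
        constructor
        · intro h i hi
          rcases Nat.mul_eq_zero.1 (h i (mem_univ i)) with h3 | h3
          · exact absurd h3 ((hA i).1 hi)
          · exact h3
        · intro h i _
          by_cases hi : i ∈ A
          · rw [h i hi, Nat.cast_zero, mul_zero]
          · have : u i = 0 := by
              by_contra h3
              exact hi ((hA i).2 h3)
            rw [this, zero_mul]
      have hI : ∀ α, α ∈ NDR.fcn f.support u ↔ α ∈ f.support ∧ ∀ i ∈ A, α i = 0 := by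
        intro α
        rw [mem_fcn, ← hz]
        constructor
        · rintro ⟨h3, h4⟩
          have h5 := h4 α0 hα0
          exact ⟨h3, by omega⟩
        · rintro ⟨h3, h4⟩
          exact ⟨h3, fun β _ => by rw [h4]; exact Nat.zero_le _⟩
      have h3 := H70.restr_eq_part f _ A hI
      rw [← h3]
      refine hN A ?_
      rw [h3]
      intro h4
      have h5 : α0 ∈ NDR.fcn f.support u := (hI α0).2 ⟨hα0, (hz α0).1 h2⟩
      have h6 := H70.coeff_part (f := f) h5
      rw [h4, MvPolynomial.coeff_zero] at h6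
      exact MvPolynomial.mem_support_iff.1 hα0 h6.symm
  · rw [prt_eq]
    refine H70.torusSmooth_of_indep (fcz_ne (fce_ne hM κ) η)
      (fun α hα => hsub κ (mem_fcz.1 hα).1)
      (indep_of_simplicial hS hκ fun α hα => (mem_fcz.1 hα).1)

/-- simplicial nondegenerate polynomials in the sense of `Helper30_Simp` -/
theorem nondeg_of_simplicial {f : MvPolynomial σ k} (hf : f ≠ 0) (hS : Simplicial f.support)
    (hN : Nondeg f) : Pool.Agent.Helper91_NDR.Nondegenerate f :=
  (Pool.Agent.Helper91_NDR.nondeg_iff f).2 (nd_of_simplicial hf hS hN)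

end basic

end Pool.Agent.GENF.H58
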