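import Pool.Agent.Helper56_GEN.TorC
import Pool.Agent.Helper58_NDF.Emf

/-!
# The zeta side for all Newton nondegenerate polynomials

Only the face polynomials `part f (fce f.support u)` are used (`NDF f`). The relations of the weak
stable sets hold for the faces (`ClkF`); the universal polynomials of squad GEN express the class of
a face by classes of faces.
-/

set_option autoImplicit false
set_option linter.unusedVariables false
set_option linter.unusedSectionVars false

namespace Pool.Agent.GENF.H58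

open PowerSeries Finset Pool.Agent.Helper6_Mono Pool.Agent.Helper30_Simp
  Pool.Agent.Helper30_Simp.H32 Pool.Agent.Helper30_Simp2 Pool.Agent.Helper30_Simp2.H63
  Pool.Agent.GEN Pool.Agent.GEN.H71 Pool.Agent.GEN.H21 Pool.Agent.GEN.H56

section faces

variable {σ : Type} [Fintype σ]

/-- `I` is empty or the face of a weight vector whose zero set is `J` -/
def Fc (M : Finset (σ →₀ ℕ)) (J : Finset σ) (I : Finset (σ →₀ ℕ)) : Prop :=
  I = ∅ ∨ ∃ (u : σ → ℕ) (N : ℕ), CellS M I J u N

open scoped Classical in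
theorem dot_add_ind (u : σ → ℕ) (E : Finset σ) (α : σ →₀ ℕ) :
    dot (fun i => u i + if i ∈ E then 1 else 0) α = dot u α + ∑ i ∈ E, α i := by
  unfold dot
  simp only [add_mul, Finset.sum_add_distrib, Nat.cast_id]
  congr 1
  simp only [ite_mul, one_mul, zero_mul, Finset.sum_ite_mem, Finset.univ_inter]

theorem mem_keep {I : Finset (σ →₀ ℕ)} {K K' : Finset σ} {α : σ →₀ ℕ} :
    α ∈ keep I K K' ↔ α ∈ I ∧ ∀ j ∈ K, j ∉ K' → α j = 0 := by
  simp only [keep, Finset.mem_filter]

theorem Fc_keep {M : Finset (σ →₀ ℕ)} {J : Finset σ} {I : Finset (σ →₀ ℕ)} {K K' : Finset σ}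
    (h : Fc M J I) (hd : Disjoint K J) (hK : KS I K) (hK' : K' ⊆ K) : Fc M J (keep I K K') := by
  classical
  rcases h with h | ⟨u, N, h⟩
  · left
    rw [h]
    simp [keep]
  · by_cases hne : (keep I K K').Nonempty
    swap
    · left
      exact Finset.not_nonempty_iff_eq_empty.1 hne
    right
    refine ⟨fun i => u i + if i ∈ K \ K' then 1 else 0, N, ?_, ?_, hne, ?_, ?_⟩
    · intro i
      constructor
      · intro h1
        exact (h.zero i).1 (by omega)
      · intro h1
        have h2 : i ∉ K \ K' := fun h3 =>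
          (Finset.disjoint_left.1 hd (Finset.mem_sdiff.1 h3).1) h1
        show u i + (if i ∈ K \ K' then 1 else 0) = 0
        rw [if_neg h2, (h.zero i).2 h1]
    · exact (keep_sub I K K').trans h.sub
    · intro α hα
      have hα' := mem_keep.1 hα
      rw [dot_add_ind, h.eq α hα'.1, Finset.sum_eq_zero, add_zero]
      intro i hi
      exact hα'.2 i (Finset.mem_sdiff.1 hi).1 (Finset.mem_sdiff.1 hi).2
    · intro β hβ hβk
      rw [dot_add_ind]
      by_cases hβI : β ∈ I
      · have h1 : ∃ j ∈ K, j ∉ K' ∧ β j ≠ 0 := by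
          by_contra h2
          push Not at h2
          exact hβk (mem_keep.2 ⟨hβI, h2⟩)
        obtain ⟨j, hj, hj', hβj⟩ := h1
        have h3 : β j ≤ ∑ i ∈ K \ K', β i :=
          Finset.single_le_sum (fun _ _ => Nat.zero_le _) (Finset.mem_sdiff.2 ⟨hj, hj'⟩)
        have h4 := h.eq β hβI
        have h5 : dot u β + 0 < dot u β + ∑ i ∈ K \ K', β i := by
          have : 0 < β j := Nat.pos_of_ne_zero hβj
          omega
        rw [← h4]
        simpa using h5
      · have h1 := h.lt β hβ hβI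
        exact lt_of_lt_of_le h1 (Nat.le_add_right _ _)

/-- the monomials of a face which contain a variable of `K'` form a face -/
theorem sub_face {M : Finset (σ →₀ ℕ)} {J : Finset σ} {I I' : Finset (σ →₀ ℕ)} {K K' : Finset σ}
    {u : σ → ℕ} {N : ℕ} (h : CellS M I J u N) (hd : Disjoint K J) (hK : Stab I K) (hK' : K' ⊆ K)
    (hI' : ∀ α, α ∈ I' ↔ α ∈ I ∧ ∃ j ∈ K', α j = 1) (hne : I'.Nonempty) :
    ∃ u' : σ → ℕ, I' = fce M u' := by
  classical
  obtain ⟨n, hn⟩ : ∃ n : ℕ, n = 1 + ∑ β ∈ M, ∑ j ∈ K', β j := ⟨_, rfl⟩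
  have hpos : ∀ j ∈ K', 0 < u j := by
    intro j hj
    refine Nat.pos_of_ne_zero fun h0 => ?_
    exact Finset.disjoint_left.1 hd (hK' hj) ((h.zero j).1 h0)
  obtain ⟨u', hu'⟩ : ∃ u' : σ → ℕ, u' = fun i => n * u i - if i ∈ K' then 1 else 0 := ⟨_, rfl⟩
  have hdot : ∀ α : σ →₀ ℕ, dot u' α + ∑ j ∈ K', α j = n * dot u α := by
    intro α
    have h1 : (fun i => u' i + if i ∈ K' then 1 else 0) = fun i => n * u i := by
      funext i
      rw [hu']
      by_cases hi : i ∈ K'
      · simp only [if_pos hi]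
        have h2 := hpos i hi
        have h3 : 1 ≤ n * u i := by
          rw [hn]
          exact Nat.mul_pos (by omega) h2
        omega
      · simp only [if_neg hi]
        rfl
    have h2 := dot_add_ind u' K' α
    rw [h1] at h2
    rw [← h2]
    unfold dot
    rw [Finset.mul_sum]
    refine Finset.sum_congr rfl fun i _ => ?_
    ring
  have hle1 : ∀ α ∈ I, ∑ j ∈ K', α j ≤ 1 := fun α hα =>
    (Finset.sum_le_sum_of_subset hK').trans (hK.2.1 α hα)
  have hin : ∀ α ∈ I', ∑ j ∈ K', α j = 1 := by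
    intro α hα
    obtain ⟨h1, j, hj, hαj⟩ := (hI' α).1 hα
    have h2 : α j ≤ ∑ j ∈ K', α j := Finset.single_le_sum (fun _ _ => Nat.zero_le _) hj
    have h3 := hle1 α h1
    omega
  have hbig : ∀ β ∈ M, ∑ j ∈ K', β j < n := by
    intro β hβ
    have h1 : ∑ j ∈ K', β j ≤ ∑ β ∈ M, ∑ j ∈ K', β j :=
      Finset.single_le_sum (f := fun β : σ →₀ ℕ => ∑ j ∈ K', β j) (fun _ _ => Nat.zero_le _) hβ
    omega
  have hcell : CellS M I' (univ.filter fun i => u' i = 0) u' (n * N - 1) := by
    obtain ⟨α₀, hα₀⟩ := hne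
    have hval : ∀ α ∈ I', dot u' α + 1 = n * N := by
      intro α hα
      have h1 := hdot α
      rw [hin α hα, h.eq α ((hI' α).1 hα).1] at h1
      exact h1
    refine ⟨fun i => by simp, fun α hα => h.sub ((hI' α).1 hα).1, ⟨α₀, hα₀⟩, ?_, ?_⟩
    · intro α hα
      have h1 := hval α hα
      have h2 : dot u' α = n * N - 1 := by omega
      exact_mod_cast h2
    · intro β hβ hβI'
      have h1 := hval α₀ hα₀
      have h2 := hdot β
      by_cases hβI : β ∈ I
      · have h3 : ∑ j ∈ K', β j = 0 := by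
          by_contra h4
          obtain ⟨j, hj, hβj⟩ : ∃ j ∈ K', β j ≠ 0 := by
            by_contra h5
            push Not at h5
            exact h4 (Finset.sum_eq_zero h5)
          have h5 : β j ≤ ∑ j ∈ K', β j := Finset.single_le_sum (fun _ _ => Nat.zero_le _) hj
          have h6 := hle1 β hβI
          exact hβI' ((hI' β).2 ⟨hβI, j, hj, by omega⟩)
        rw [h3, h.eq β hβI] at h2
        have h4 : n * N - 1 < dot u' β := by
          have : dot u' β + 0 = n * N := h2
          omega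
        exact_mod_cast h4
      · have h3 := h.lt β hβ hβI
        have h4 : n * (N + 1) ≤ n * dot u β := Nat.mul_le_mul_left n h3
        have h5 := hbig β hβ
        have h6 : n * (N + 1) = n * N + n := by ring
        have h7 : n * N - 1 < dot u' β := by omega
        exact_mod_cast h7
  exact ⟨u', cell_fce hcell⟩

end faces

/-- no common zeros of the cofactors, for faces -/
theorem emp_face {k : Type} [Field k] [CharZero k] {σ : Type} [Fintype σ] {f : MvPolynomial σ k}
    (hf : NDF f) {J : Finset σ} {I : Finset (σ →₀ ℕ)} {K : Finset σ} (h : Fc f.support J I)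
    (hd : Disjoint K J) (hK : KS I K) (S : Type) [CommRing S] [Nontrivial S] [Algebra k S]
    (x : σ → S) (hx : ∀ i, i ∉ K → (∃ α ∈ I, α i ≠ 0) → IsUnit (x i)) :
    ¬ ∀ j ∈ K, gjv f I j x = 0 := by
  rcases h with h | ⟨u, N, h⟩
  · exfalso
    obtain ⟨j, hj⟩ := hK.1.1
    obtain ⟨α, hα, -⟩ := hK.1.2.2 j hj
    rw [h] at hα
    exact Finset.notMem_empty _ hα
  · refine emf f I K (fun K' hK' I' hI' hne => ?_) hK S x hx
    obtain ⟨u', hu'⟩ := sub_face h hd hK.1 hK' hI' hne
    rw [hu']
    exact hf u'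

/-- the relations of the classes of the faces -/
def ClkF : Prop :=
  ∀ (k : Type) [Field k] [CharZero k] (σ : Type) [Fintype σ] (R : Type 1) [CommRing R] (L : Rˣ)
    (χ : SInv k (fun _ : σ => (0 : QZ)) L) (f : MvPolynomial σ k), NDF f →
    ∀ (I : Finset (σ →₀ ℕ)) (J K : Finset σ), I ⊆ f.support → Fc f.support J I →
    Disjoint K J → KS I K →
    (∑ K' ∈ K.powerset, ((L : R) - 1) ^ gex I J K K' * χ.χ (TT0 (V0 f (keep I K K') J))
      = ((L : R) - 1) ^ (dd I J - K.card) * (L : R) ^ (K.card - 1) * χ.χ (TT0 (V0 f ∅ J))) ∧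
    ((∃ w : σ → ℚ, (∀ α ∈ I, ∑ i, w i * (α i : ℚ) = 1) ∧ ∀ i ∈ J, w i = 0) →
      ∑ K' ∈ K.powerset, ((L : R) - 1) ^ gex I J K K' * Y1w χ f J (keep I K K')
      = ((L : R) - 1) ^ (dd I J - K.card) * (L : R) ^ (K.card - 1) * χ.χ (TT0 (V0 f ∅ J)))

/-- end of the zeta side -/
def ZfinF (KP : Slp) : Prop :=
  ∀ (k : Type) [Field k] [CharZero k] (σ : Type) [Fintype σ] (R : Type 1) [CommRing R] (L : Rˣ)
    (χ : SInv k (fun _ : σ => (0 : QZ)) L) (f : MvPolynomial σ k), f ≠ 0 → NDF f →
    (∀ J, Conf f.support J) →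
    ∀ B : Set ℚ, 1 ∉ B → (∀ x ∈ B, KP σ f.support x ∨ AllUB f.support x) →
    ∃ a : ℕ → R, a 0 = 0 ∧ RP L (steps ((slopes f.support ∪ {1}) \ B)) a ∧
      ∀ (m : ℕ) (hm : m ≠ 0) (hω : m • ((((1 : ℚ) / m : ℚ)) : QZ) = 0),
        a m = Li L ^ (m * Fintype.card σ) *
          χ.χ ((FibK k σ ((((1 : ℚ) / m : ℚ)) : QZ) m hω).app
            (Jet f Set.univ m ((((1 : ℚ) / m : ℚ)) : QZ)))

/-- the solution property of the universal polynomials (proof of helper76) -/
theorem usoF (dcb : DcbStmt) (σ : Type) [Fintype σ] (M : Finset (σ →₀ ℕ)) (J : Finset σ)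
    (P : Finset (σ →₀ ℕ) → Option (Finset (σ →₀ ℕ)) → Polynomial ℤ) (hP : IsP M J P)
    (R : Type 1) [CommRing R] (y τ : R) (Sp : Finset (σ →₀ ℕ) → Prop)
    (hSp : ∀ (I : Finset (σ →₀ ℕ)) (K K' : Finset σ), Sp I → Disjoint K J → KS I K → K' ⊆ K →
      Sp (keep I K K'))
    (Z : Finset (σ →₀ ℕ) → R)
    (hZ : ∀ (I : Finset (σ →₀ ℕ)) (K : Finset σ), I ⊆ M → Sp I → Disjoint K J → KS I K →
      ∑ K' ∈ K.powerset, y ^ gex I J K K' * Z (keep I K K')
        = y ^ (dd I J - K.card) * (y + 1) ^ (K.card - 1) * τ) :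
    ∀ I ⊆ M, Sp I →
      Z I = evI y (P I none) * τ + ∑ I₁ ∈ M.powerset, evI y (P I (some I₁)) * Z I₁ := by
  classical
  let E : Polynomial ℤ →+* R := Polynomial.eval₂RingHom (Int.castRingHom R) y
  have hE : ∀ p, evI y p = E p := fun p => rfl
  have hEX : E Polynomial.X = y := Polynomial.eval₂_X (Int.castRingHom R) y
  let Φ : Finset (σ →₀ ℕ) → R := fun I =>
    E (P I none) * τ + ∑ I₁ ∈ M.powerset, E (P I (some I₁)) * Z I₁
  have main : ∀ n : ℕ, ∀ I : Finset (σ →₀ ℕ), I.card = n → I ⊆ M → Sp I → Z I = Φ I := by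
    intro n
    induction n using Nat.strong_induction_on with
    | _ n ih =>
      intro I hn hIM hS
      obtain ⟨d1, d2, -, d4, -⟩ := dcb σ I J
      by_cases hR : Red I J
      · obtain ⟨hdis, hKS⟩ := Kc_spec hR
        set D : Finset σ := Kc I J with hD
        have hocc : ∀ j ∈ D, ∃ α ∈ I, α j ≠ 0 := by
          intro j hj
          obtain ⟨α, hα, h1⟩ := hKS.1.2.2 j hj
          exact ⟨α, hα, by omega⟩
        have hcard : D.card ≤ dd I J := (d1 D D hocc hdis (Finset.Subset.refl D)).2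
        have hkD : keep I D D = I := (d2 D D).2
        have hgD : gex I J D D = 0 := by
          unfold gex
          rw [hkD]
          omega
        have hrel := hZ I D hIM hS hdis hKS
        have hDmem : D ∈ D.powerset := Finset.mem_powerset.2 (Finset.Subset.refl D)
        -- the equation of `IsP` evaluated at `y`
        have hPl : ∀ l, ∑ K' ∈ D.powerset, y ^ gex I J D K' * E (P (keep I D K') l) =
            if l = none then y ^ (dd I J - D.card) * (y + 1) ^ (D.card - 1) else 0 := by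
          intro l
          have h1 := congrArg E (hP I hIM l)
          rw [if_pos hR, map_sum] at h1
          have h2 : ∑ K' ∈ D.powerset, y ^ gex I J D K' * E (P (keep I D K') l) =
              ∑ K' ∈ D.powerset, E (Polynomial.X ^ gex I J D K' * P (keep I D K') l) := by
            refine Finset.sum_congr rfl fun K' _ => ?_
            rw [map_mul, map_pow, hEX]
          rw [h2, h1]
          by_cases hl : l = none
          · rw [if_pos hl, if_pos hl, map_mul, map_pow, map_pow, map_add, map_one, hEX]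
          · rw [if_neg hl, if_neg hl, map_zero]
        have hΦ : ∑ K' ∈ D.powerset, y ^ gex I J D K' * Φ (keep I D K') =
            y ^ (dd I J - D.card) * (y + 1) ^ (D.card - 1) * τ := by
          have h1 : ∑ K' ∈ D.powerset, y ^ gex I J D K' * Φ (keep I D K') =
              (∑ K' ∈ D.powerset, y ^ gex I J D K' * E (P (keep I D K') none)) * τ +
              ∑ I₁ ∈ M.powerset,
                (∑ K' ∈ D.powerset, y ^ gex I J D K' * E (P (keep I D K') (some I₁))) * Z I₁ := by
            have h2 : ∀ K' ∈ D.powerset, y ^ gex I J D K' * Φ (keep I D K') =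
                y ^ gex I J D K' * E (P (keep I D K') none) * τ +
                ∑ I₁ ∈ M.powerset, y ^ gex I J D K' * E (P (keep I D K') (some I₁)) * Z I₁ := by
              intro K' _
              show y ^ gex I J D K' * (E (P (keep I D K') none) * τ +
                ∑ I₁ ∈ M.powerset, E (P (keep I D K') (some I₁)) * Z I₁) = _
              rw [mul_add, Finset.mul_sum, mul_assoc]
              congr 1
              refine Finset.sum_congr rfl fun I₁ _ => ?_
              rw [mul_assoc]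
            rw [Finset.sum_congr rfl h2, Finset.sum_add_distrib, Finset.sum_mul,
              Finset.sum_comm]
            congr 1
            refine Finset.sum_congr rfl fun I₁ _ => ?_
            rw [Finset.sum_mul]
          rw [h1, hPl none, if_pos rfl]
          have h3 : ∑ I₁ ∈ M.powerset,
              (∑ K' ∈ D.powerset, y ^ gex I J D K' * E (P (keep I D K') (some I₁))) * Z I₁
                = 0 := by
            refine Finset.sum_eq_zero fun I₁ _ => ?_
            rw [hPl (some I₁), if_neg (by simp), zero_mul]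
          rw [h3, add_zero]
        have heq : ∑ K' ∈ D.powerset, y ^ gex I J D K' * Z (keep I D K') =
            ∑ K' ∈ D.powerset, y ^ gex I J D K' * Φ (keep I D K') := by
          rw [hrel, hΦ]
        rw [← Finset.add_sum_erase _ _ hDmem, ← Finset.add_sum_erase _ _ hDmem, hgD, hkD,
          pow_zero, one_mul, one_mul] at heq
        have hrest : ∑ K' ∈ D.powerset.erase D, y ^ gex I J D K' * Z (keep I D K') =
            ∑ K' ∈ D.powerset.erase D, y ^ gex I J D K' * Φ (keep I D K') := by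
          refine Finset.sum_congr rfl fun K' hK' => ?_
          rw [Finset.mem_erase, Finset.mem_powerset] at hK'
          have hlt := d4 D K' hocc hK'.2 hK'.1
          have hsub : keep I D K' ⊆ I := (d2 D K').1
          rw [ih _ (hn ▸ hlt) (keep I D K') rfl (hsub.trans hIM) (hSp I D K' hS hdis hKS hK'.2)]
        rw [hrest] at heq
        exact add_right_cancel heq
      · have hD : Kc I J = ∅ := Kc_neg hR
        have hk : keep I ∅ ∅ = I := (d2 ∅ ∅).2
        have hg : gex I J ∅ ∅ = 0 := by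
          unfold gex
          rw [hk]
          simp
        have hPl : ∀ l, P I l = if l = some I then 1 else 0 := by
          intro l
          have h1 := hP I hIM l
          rw [if_neg hR, hD, Finset.powerset_empty, Finset.sum_singleton, hg, hk, pow_zero,
            one_mul] at h1
          exact h1
        show Z I = E (P I none) * τ + ∑ I₁ ∈ M.powerset, E (P I (some I₁)) * Z I₁
        rw [hPl none, if_neg (by simp), map_zero, zero_mul, zero_add,
          Finset.sum_eq_single I]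
        · rw [hPl (some I), if_pos rfl, map_one, one_mul]
        · intro I₁ _ hne
          rw [hPl (some I₁), if_neg (fun h => hne (Option.some.inj h)), map_zero, zero_mul]
        · intro h
          exact absurd (Finset.mem_powerset.2 hIM) h
  intro I hIM hS
  have h := main I.card I rfl hIM hS
  rw [h]
  rfl


section main

variable {k : Type} [Field k] [CharZero k] {σ : Type} [Fintype σ] {R : Type 1} [CommRing R]
  {L : Rˣ} (χ : SInv k (fun _ : σ => (0 : QZ)) L) (f : MvPolynomial σ k)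

/-- the class of a stratum of the jet space, when all initial forms are smooth in the torus -/
theorem keyF (h1 : P1Stmt) (h2 : P2Stmt) (h3 : P3Stmt) (hY : YttStmt)
    (hf : f ≠ 0) (hsm : ∀ (I : Finset (σ →₀ ℕ)) (J : Finset σ) (u : σ → ℕ) (N : ℕ),
      CellS f.support I J u N → TorusSmooth (part f I)) (m : ℕ) (hm : m ≠ 0)
    (hω : m • ((((1 : ℚ) / m : ℚ)) : QZ) = 0) (u : σ → Fin (m + 2)) :
    Li L ^ (m * Fintype.card σ) * χ.χ (FS f (fun i => (u i : ℕ)) m ((((1 : ℚ) / m : ℚ)) : QZ) hω)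
      = ∑ t ∈ f.support.powerset ×ˢ (univ : Finset σ).powerset,
        Pool.Agent.Helper30_Simp.H15.gt χ f m t u := by
  classical
  obtain ⟨I, J, N, hc⟩ := Pool.Agent.Helper30_Simp.H15.cell_exists
    (MvPolynomial.support_nonempty.2 hf) (fun i => (u i : ℕ))
  have hmem : (I, J) ∈ f.support.powerset ×ˢ (univ : Finset σ).powerset :=
    Finset.mem_product.2 ⟨Finset.mem_powerset.2 hc.sub, Finset.mem_powerset.2 (subset_univ _)⟩
  rw [Finset.sum_eq_single_of_mem (I, J) hmem
    (fun t _ ht => Pool.Agent.Helper30_Simp.H15.gt_zero χ f hc (Or.inl ht))]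
  rcases lt_trichotomy m N with hlt | heq | hgt
  · rw [Pool.Agent.Helper30_Simp.H15.gt_zero χ f hc (Or.inr hlt),
      h1 k σ R L χ f (fun i => (u i : ℕ)) m _ hω, mul_zero]
    intro α hα
    by_cases hI : α ∈ I
    · rw [hc.eq α hI]
      exact hlt
    · exact hlt.trans (hc.lt α hα hI)
  · subst heq
    have e0 : Pool.Agent.Helper30_Simp.H15.gt χ f m (I, J) u
        = Pool.Agent.Helper30_Simp.H15.Y1 χ f (I, J) * ∏ i, cw L I J m i (u i) := by
      unfold Pool.Agent.Helper30_Simp.H15.gt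
      rw [if_pos hc, Finset.sum_eq_zero, add_zero]
      intro l hl
      rw [if_neg]
      intro hc'
      have := (Pool.Agent.Helper30_Simp.H15.cell_unique hc hc').2.2
      have := Finset.mem_range.1 hl
      omega
    rw [e0, h2 k σ R L χ f I J (fun i => (u i : ℕ)) m hc _ hω,
      ← Pool.Agent.Helper30_Simp.H15.prod_cw L hc le_rfl (fun i => inferInstance)]
    have hex : ∃ (u₀ : σ → ℕ) (N₀ : ℕ), CellS f.support (I, J).1 (I, J).2 u₀ N₀ ∧ N₀ ≠ 0 :=
      ⟨_, m, hc, hm⟩
    have e1 : Pool.Agent.Helper30_Simp.H15.Y1 χ f (I, J)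
        = χ.χ (TT1 (V1 hex.choose_spec.choose_spec.1
        hex.choose_spec.choose_spec.2) rfl) := by
      unfold Pool.Agent.Helper30_Simp.H15.Y1
      rw [dif_pos hex]
    have e2 := (hY k σ R L χ f I J (fun i => (u i : ℕ)) m m hc le_rfl).2 rfl hm
      ((((1 : ℚ) / m : ℚ)) : QZ) rfl hω _ _ hex.choose_spec.choose_spec.1
        hex.choose_spec.choose_spec.2
    rw [e1, e2]
    ring
  · have e0 : Pool.Agent.Helper30_Simp.H15.gt χ f m (I, J) u
        = Pool.Agent.Helper30_Simp.H15.Y0 χ f (I, J) * Li L ^ (m - N)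
          * ∏ i, cw L I J m i (u i) := by
      unfold Pool.Agent.Helper30_Simp.H15.gt
      have hno : ¬ CellS f.support (I, J).1 (I, J).2 (fun i => (u i : ℕ)) m := by
        intro hc'
        have := (Pool.Agent.Helper30_Simp.H15.cell_unique hc hc').2.2
        omega
      rw [if_neg hno, zero_add, Finset.sum_eq_single_of_mem N (Finset.mem_range.2 hgt), if_pos hc]
      intro l hl hne
      rw [if_neg]
      intro hc'
      exact hne (Pool.Agent.Helper30_Simp.H15.cell_unique hc hc').2.2.symm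
    have hT := hsm I J _ N hc
    rw [e0, h3 k σ R L χ f I J (fun i => (u i : ℕ)) N m hc hgt hT _ hω,
      ← Pool.Agent.Helper30_Simp.H15.prod_cw L hc hgt.le (fun i => inferInstance),
      (hY k σ R L χ f I J (fun i => (u i : ℕ)) N m hc hgt.le).1]
    unfold Pool.Agent.Helper30_Simp.H15.Y0
    rw [pow_add]
    ring

end main

/-- the case without removed slopes -/
theorem zfin0F (hS : StrataStmt) (h1 : P1Stmt) (h2 : P2Stmt) (h3 : P3Stmt)
    (hY : YttStmt) (hT : TruncStmt) (hC : ConeStmt)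
    (k : Type) [Field k] [CharZero k] (σ : Type) [Fintype σ] (R : Type 1) [CommRing R] (L : Rˣ)
    (χ : SInv k (fun _ : σ => (0 : QZ)) L) (f : MvPolynomial σ k) (hf : f ≠ 0)
    (hsm : ∀ (I : Finset (σ →₀ ℕ)) (J : Finset σ) (u : σ → ℕ) (N : ℕ),
      CellS f.support I J u N → TorusSmooth (part f I)) :
    ∃ a : ℕ → R, a 0 = 0 ∧ RP L (steps (slopes f.support ∪ {1})) a ∧
      ∀ (m : ℕ) (hm : m ≠ 0) (hω : m • ((((1 : ℚ) / m : ℚ)) : QZ) = 0),
        a m = Li L ^ (m * Fintype.card σ) *
          χ.χ ((FibK k σ ((((1 : ℚ) / m : ℚ)) : QZ) m hω).app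
            (Jet f Set.univ m ((((1 : ℚ) / m : ℚ)) : QZ))) := by
  classical
  have hRP : RP L (steps (slopes f.support ∪ {1})) (fun m =>
      ∑ t ∈ f.support.powerset ×ˢ (univ : Finset σ).powerset,
        (Pool.Agent.Helper30_Simp.H15.Y1 χ f t * coneSum L f.support t.1 t.2 m m
        + Pool.Agent.Helper30_Simp.H15.Y0 χ f t
          * ∑ p ∈ Finset.HasAntidiagonal.antidiagonal m,
          coneSum L f.support t.1 t.2 p.1 p.1
            * (if p.2 = 0 then (0 : R) else ((L⁻¹ ^ p.2 : Rˣ) : R)))) := by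
    refine RP.sum _ fun t _ => ?_
    have hc : RP L (steps (slopes f.support)) (fun l => coneSum L f.support t.1 t.2 l l) :=
      hC σ R L f.support t.1 t.2
    refine RP.add (RP.smul _ (hc.mono ?_)) (RP.smul _ (RP.cauchy hc RP.tail))
    intro p hp
    exact ⟨hp.1, Or.inl hp.2⟩
  refine ⟨fun m => if m = 0 then 0 else
      ∑ t ∈ f.support.powerset ×ˢ (univ : Finset σ).powerset,
        (Pool.Agent.Helper30_Simp.H15.Y1 χ f t * coneSum L f.support t.1 t.2 m m
        + Pool.Agent.Helper30_Simp.H15.Y0 χ f t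
          * ∑ p ∈ Finset.HasAntidiagonal.antidiagonal m,
          coneSum L f.support t.1 t.2 p.1 p.1
            * (if p.2 = 0 then (0 : R) else ((L⁻¹ ^ p.2 : Rˣ) : R))), ?_, ?_, ?_⟩
  · simp
  · refine RP.of_shift 1 ((hRP.shift 1).congr fun m => ?_)
    rw [if_neg (Nat.succ_ne_zero m)]
  · intro m hm hω
    simp only [if_neg hm]
    rw [hS k σ R L χ f m hm _ hω, Finset.mul_sum]
    simp only [keyF χ f h1 h2 h3 hY hf hsm m hm hω]
    rw [Finset.sum_comm]
    refine Finset.sum_congr rfl fun t _ => ?_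
    exact (Pool.Agent.Helper30_Simp.H15.sum_gt χ f hT m t).symm


theorem clkF (h2 : StkStmt) (h3 : AfkStmt) : ClkF := by
  intro k _ _ σ _ R _ L χ f hind I J K hI hFc hJK hKS
  have hemp := emp_face hind hFc hJK hKS
  have hFT : FTStmt := Helper30_Simp.H51.fts
  constructor
  · have hU : ∀ i, i ∈ (V0 f I J).U ↔ i ∉ freeV I J := by
      intro i
      simp
    have e1 := (h2 k σ R L χ f I J K hI hJK hKS.1 false (V0 f I J) rfl hU rfl
      (fun K' => keep_sub I K K')).2
    have e2 := h3 k σ R L χ f I J K hI hJK hKS.1 false (V0 f I J) rfl hU rfl hemp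
    rw [e2] at e1
    rw [e1]
    refine Finset.sum_congr rfl fun K' _ => ?_
    congr 1
    exact χ.iso ((hFT k σ QZ).1 _ _) (iso0 (V0 f (keep I K K') J) rfl)
  · rintro ⟨w, hw, hwJ⟩
    have hU : ∀ i, i ∈ (VQ f I J w hw hwJ).U ↔ i ∉ freeV I J := by
      intro i
      simp
    have e1 := (h2 k σ R L χ f I J K hI hJK hKS.1 true (VQ f I J w hw hwJ) rfl hU rfl
      (fun K' => keep_sub I K K')).2
    have e2 := h3 k σ R L χ f I J K hI hJK hKS.1 true (VQ f I J w hw hwJ) rfl hU rfl hemp
    rw [e2] at e1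
    rw [e1]
    refine Finset.sum_congr rfl fun K' _ => ?_
    congr 1
    have hw' : ∀ α ∈ keep I K K', ∑ i, w i * (α i : ℚ) = 1 :=
      fun α hα => hw α (keep_sub I K K' hα)
    have hcls : ClsStmt := H63.cls hFT (Helper30_Simp.H39.weights hFT)
      (Helper30_Simp.H39.split hFT)
    rw [Y1w_eq hcls χ f J (keep I K K') w hw' hwJ]
    exact χ.iso ((hFT k σ QZ).2.1 _ _ _) (iso1 (VQ f (keep I K K') J w hw' hwJ) rfl)



/-- the end of the zeta side from its modules -/
theorem zfkF_aux {KP : Slp} (hcls : ClsStmt) (hS : StrataStmt) (h1 : P1Stmt)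
    (h2 : P2Stmt) (h3 : P3Stmt) (hY : YttStmt) (hT : TruncStmt) (hC : ConeStmt)
    (hclk : ClkF) (hrec : RecStmt) (hdcb : DcbStmt) (hgda : GdaP KP) :
    ZfinF KP := by
  classical
  intro k _ _ σ _ R _ L χ f hf hai hconf B hB1 hB
  have hsm : ∀ (I : Finset (σ →₀ ℕ)) (J : Finset σ) (u : σ → ℕ) (N : ℕ),
      CellS f.support I J u N → TorusSmooth (part f I) := fun I J u N h => cell_smooth hai h
  by_cases hB0 : B.Nonempty
  swap
  · obtain rfl : B = ∅ := Set.not_nonempty_iff_eq_empty.1 hB0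
    have h4 := zfin0F hS h1 h2 h3 hY hT hC k σ R L χ f hf hsm
    rw [Set.sdiff_empty]
    exact h4
  have hM : f.support.Nonempty := MvPolynomial.support_nonempty.2 hf
  choose P hP using fun J : Finset σ => (hrec σ f.support J).1
  have hL : ((L : R) - 1) + 1 = L := sub_add_cancel _ _
  have form0 : ∀ (J : Finset σ) (I : Finset (σ →₀ ℕ)), I ⊆ f.support → Fc f.support J I →
      χ.χ (TT0 (V0 f I J)) = evI ((L : R) - 1) (P J I none) * χ.χ (TT0 (V0 f ∅ J))
        + ∑ I₁ ∈ f.support.powerset, evI ((L : R) - 1) (P J I (some I₁))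
          * χ.χ (TT0 (V0 f I₁ J)) := by
    intro J I hI hFc
    refine usoF hdcb σ f.support J (P J) (hP J) R ((L : R) - 1) (χ.χ (TT0 (V0 f ∅ J)))
      (Fc f.support J) (fun I K K' h1 h2 h3 h4 => Fc_keep h1 h2 h3 h4)
      (fun I => χ.χ (TT0 (V0 f I J)))
      (fun I K hI hc hd hKS => ?_) I hI hFc
    rw [hL]
    exact (hclk k σ R L χ f hai I J K hI hc hd hKS).1
  have form1 : ∀ (J : Finset σ) (w : σ → ℚ), (∀ i ∈ J, w i = 0) →
      ∀ (I : Finset (σ →₀ ℕ)), I ⊆ f.support → Fc f.support J I →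
      (∀ α ∈ I, ∑ i, w i * (α i : ℚ) = 1) → Y1w χ f J I = evI ((L : R) - 1) (P J I none) * χ.χ (TT0 (V0 f ∅ J))
        + ∑ I₁ ∈ f.support.powerset, evI ((L : R) - 1) (P J I (some I₁))
          * Y1w χ f J I₁ := by
    intro J w hJ I hI hFc hw
    refine usoF hdcb σ f.support J (P J) (hP J) R ((L : R) - 1) (χ.χ (TT0 (V0 f ∅ J)))
      (fun I => Fc f.support J I ∧ ∀ α ∈ I, ∑ i, w i * (α i : ℚ) = 1)
      (fun I K K' h1 h2 h3 h4 => ⟨Fc_keep h1.1 h2 h3 h4, fun α hα =>
        h1.2 α (keep_sub I K K' hα)⟩) (Y1w χ f J)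
      (fun I K hI hw hd hKS => ?_) I hI ⟨hFc, hw⟩
    rw [hL]
    exact (hclk k σ R L χ f hai I J K hI hw.1 hd hKS).2 ⟨w, hw.2, hJ⟩
  have hgood : ∀ J : Finset σ, Good L f.support B J
      (fun I => evI ((L : R) - 1) (P J I none) * χ.χ (TT0 (V0 f ∅ J))
        + ∑ I₁ ∈ f.support.powerset, evI ((L : R) - 1) (P J I (some I₁)) * Y1w χ f J I₁)
      (fun I => evI ((L : R) - 1) (P J I none) * χ.χ (TT0 (V0 f ∅ J))
        + ∑ I₁ ∈ f.support.powerset, evI ((L : R) - 1) (P J I (some I₁))
          * χ.χ (TT0 (V0 f I₁ J))) := fun J =>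
    hgda σ f.support hM B hB1 hB hB0 R L J (hconf J) (P J) (hP J) (χ.χ (TT0 (V0 f ∅ J)))
      (Y1w χ f J) (fun I => χ.χ (TT0 (V0 f I J))) (Y1w_empty hcls χ f J) rfl
  obtain ⟨T, hTdef⟩ : ∃ T : ℕ → R, T = fun m => ∑ J ∈ (univ : Finset σ).powerset,
      ∑ I ∈ f.support.powerset,
      ((evI ((L : R) - 1) (P J I none) * χ.χ (TT0 (V0 f ∅ J))
        + ∑ I₁ ∈ f.support.powerset, evI ((L : R) - 1) (P J I (some I₁)) * Y1w χ f J I₁)
          * cs (Li L) f.support I J m m
      + (evI ((L : R) - 1) (P J I none) * χ.χ (TT0 (V0 f ∅ J))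
        + ∑ I₁ ∈ f.support.powerset, evI ((L : R) - 1) (P J I (some I₁))
          * χ.χ (TT0 (V0 f I₁ J)))
        * ∑ l ∈ range m, Li L ^ (m - l) * cs (Li L) f.support I J l l) := ⟨_, rfl⟩
  have hRP : RP L (steps ((slopes f.support ∪ {1}) \ B)) T := by
    rw [hTdef]
    exact RP.sum _ fun J _ => hgood J
  refine ⟨fun m => if m = 0 then 0 else T m, by simp, ?_, ?_⟩
  · refine RP.of_shift 1 ((hRP.shift 1).congr fun m => ?_)
    rw [if_neg (Nat.succ_ne_zero m)]
  · intro m hm hω
    simp only [if_neg hm]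
    rw [hS k σ R L χ f m hm _ hω, Finset.mul_sum]
    simp only [keyF χ f h1 h2 h3 hY hf hsm m hm hω]
    rw [Finset.sum_comm, Finset.sum_congr rfl fun t _ =>
        Pool.Agent.Helper30_Simp.H15.sum_gt χ f hT m t,
      Finset.sum_product, Finset.sum_comm, hTdef]
    refine Finset.sum_congr rfl fun J _ => Finset.sum_congr rfl fun I hI => ?_
    have hIM : I ⊆ f.support := Finset.mem_powerset.1 hI
    simp only [coneSum_eq_cs]
    congr 1
    · by_cases hex : ∃ u : σ → ℕ, CellS f.support I J u m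
      · obtain ⟨u, hu⟩ := hex
        have hex' : ∃ (u₀ : σ → ℕ) (N₀ : ℕ), CellS f.support (I, J).1 (I, J).2 u₀ N₀ ∧ N₀ ≠ 0 :=
          ⟨u, m, hu, hm⟩
        have e1 : Pool.Agent.Helper30_Simp.H15.Y1 χ f (I, J)
            = χ.χ (TT1 (V1 hex'.choose_spec.choose_spec.1
            hex'.choose_spec.choose_spec.2) rfl) := by
          unfold Pool.Agent.Helper30_Simp.H15.Y1
          rw [dif_pos hex']
        have e2 : ∀ (u₀ : σ → ℕ) (N₀ : ℕ) (h : CellS f.support I J u₀ N₀) (hN₀ : N₀ ≠ 0),
            χ.χ (TT1 (V1 h hN₀) rfl) = evI ((L : R) - 1) (P J I none) * χ.χ (TT0 (V0 f ∅ J))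
              + ∑ I₁ ∈ f.support.powerset, evI ((L : R) - 1) (P J I (some I₁))
                * Y1w χ f J I₁ := by
          intro u₀ N₀ h hN₀
          have hw : ∀ α ∈ I, ∑ i, ((u₀ i : ℚ) / N₀) * (α i : ℚ) = 1 := by
            intro α hα
            have h5 := h.eq α hα
            rw [dot_nat] at h5
            have h6 : (N₀ : ℚ) ≠ 0 := by exact_mod_cast hN₀
            have h7 : ∑ i, ((u₀ i : ℚ) / N₀) * (α i : ℚ)
                = (∑ i, (u₀ i : ℚ) * (α i : ℚ)) / N₀ := by
              rw [Finset.sum_div]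
              exact Finset.sum_congr rfl fun i _ => by ring
            have h8 : (∑ i, (u₀ i : ℚ) * (α i : ℚ)) = N₀ := by
              rw [← h5]
              push_cast
              rfl
            rw [h7, h8, div_self h6]
          have hJ : ∀ i ∈ J, (u₀ i : ℚ) / N₀ = 0 := by
            intro i hi
            rw [(h.zero i).2 hi]
            simp
          rw [← form1 J (fun i => (u₀ i : ℚ) / N₀) hJ I hIM (Or.inr ⟨u₀, N₀, h⟩) hw,
            Y1w_eq hcls χ f J I (fun i => (u₀ i : ℚ) / N₀) hw hJ]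
        rw [e1, e2]
      · have h5 : cs (Li L) f.support I J m m = 0 := by
          unfold cs
          refine Finset.sum_eq_zero fun u _ => ?_
          rw [if_neg]
          exact fun h => hex ⟨_, h⟩
        rw [h5, mul_zero, mul_zero]
    · by_cases hex : ∃ (u : σ → ℕ) (l : ℕ), CellS f.support I J u l
      swap
      · have h6 : ∀ l, cs (Li L) f.support I J l l = 0 := by
          intro l
          unfold cs
          refine Finset.sum_eq_zero fun u _ => ?_
          rw [if_neg]
          exact fun h => hex ⟨_, _, h⟩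
        simp only [h6, mul_zero, zero_mul, Finset.sum_const_zero]
      have h5 : Pool.Agent.Helper30_Simp.H15.Y0 χ f (I, J)
          = evI ((L : R) - 1) (P J I none) * χ.χ (TT0 (V0 f ∅ J))
            + ∑ I₁ ∈ f.support.powerset, evI ((L : R) - 1) (P J I (some I₁))
              * χ.χ (TT0 (V0 f I₁ J)) := form0 J I hIM (Or.inr hex)
      rw [h5]
      congr 1
      rw [Finset.Nat.sum_antidiagonal_eq_sum_range_succ_mk, Finset.sum_range_succ]
      simp only [Nat.sub_self, if_true, mul_zero, add_zero]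
      refine Finset.sum_congr rfl fun l hl => ?_
      have hl' := Finset.mem_range.1 hl
      rw [if_neg (by omega : ¬ m - l = 0), Units.val_pow_eq_pow_val, mul_comm]

/-- **Row ZFK**: the end of the zeta side -/
theorem zfkF {KP : Slp} (h2 : ClkF) (h3 : RecStmt) (h4 : DcbStmt)
    (h5 : GdaP KP) : ZfinF KP :=
  zfkF_aux
    (Pool.Agent.Helper30_Simp2.H63.cls Pool.Agent.Helper30_Simp.H51.fts
      (Pool.Agent.Helper30_Simp.H39.weights Pool.Agent.Helper30_Simp.H51.fts)
      (Pool.Agent.Helper30_Simp.H39.split Pool.Agent.Helper30_Simp.H51.fts))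
    Pool.Agent.Helper30_Simp.H70.strata Pool.Agent.Helper30_Simp.H51.p1
    Pool.Agent.Helper30_Simp.H51.p2
    (Pool.Agent.Helper30_Simp.H51.p3 Pool.Agent.Helper30_Simp.H52.hen)
    (Pool.Agent.Helper30_Simp.H39.ytt
      (Pool.Agent.Helper30_Simp.H39.weights Pool.Agent.Helper30_Simp.H51.fts)
      (Pool.Agent.Helper30_Simp.H39.split Pool.Agent.Helper30_Simp.H51.fts))
    Pool.Agent.Helper30_Simp.H32.trunc coneStmt h2 h3 h4 h5




/-- the zeta side for all supports and all nondegenerate coefficients -/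
theorem zfinFI (hZ : ZaiStmt) : ZfinF KI :=
  zfkF (clkF (H28.stk H66.dca H44.dcb) (H2.afk H66.dca (H28.stk H66.dca H44.dcb)))
    (H72.rec H44.dcb) H44.dcb
    (gdaP (H72.rec H44.dcb) (H41.unr H44.dcb (H72.rec H44.dcb)) H78.trf (seqP (zskP hZ)))

end Pool.Agent.GENF.H58
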